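import Mathlib

/-! # Theorem S: congruences and valuations -/

set_option autoImplicit false

namespace Pool.Agent.Sh

open Finset

-- MODULE s_c1
/-- Chinese remainder theorem for powers of finitely many primes -/
theorem crt (P : Finset ℕ) (hP : ∀ p ∈ P, p.Prime) (e r : ℕ → ℕ) (N : ℕ) :
    ∃ A : ℕ, N < A ∧ ∀ p ∈ P, A ≡ r p [MOD p ^ e p] := by
  have hs : ∀ p ∈ P, p ^ e p ≠ 0 := fun p hp => pow_ne_zero _ (hP p hp).ne_zero
  have pp : Set.Pairwise (P : Set ℕ) (Function.onFun Nat.Coprime fun p => p ^ e p) := by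
    intro p hp q hq hpq
    exact Nat.Coprime.pow _ _ ((Nat.coprime_primes (hP p hp) (hP q hq)).mpr hpq)
  obtain ⟨k, hk⟩ := Nat.chineseRemainderOfFinset r (fun p => p ^ e p) P hs pp
  have hprod : 0 < ∏ p ∈ P, p ^ e p := Finset.prod_pos fun p hp => Nat.pos_of_ne_zero (hs p hp)
  refine ⟨k + (N + 1) * ∏ p ∈ P, p ^ e p, ?_, fun p hp => ?_⟩
  · have h1 : (N + 1) * 1 ≤ (N + 1) * ∏ p ∈ P, p ^ e p := Nat.mul_le_mul_left _ hprod
    omega
  · have h1 : p ^ e p ∣ (N + 1) * ∏ p ∈ P, p ^ e p :=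
      Dvd.dvd.mul_left (Finset.dvd_prod_of_mem (fun p => p ^ e p) hp) _
    have h2 : k + (N + 1) * ∏ p ∈ P, p ^ e p ≡ k + 0 [MOD p ^ e p] :=
      Nat.ModEq.add_left k ((Nat.modEq_zero_iff_dvd).mpr h1)
    exact h2.trans (hk p hp)

-- MODULE s_c2
theorem val_of_mod {p A r k : ℕ} (hp : p.Prime) (hA : 0 < A) (hr : 0 < r) (hk : r.factorization p = k)
    (h : A ≡ r [MOD p ^ (k + 1)]) : A.factorization p = k := by
  have h1 : p ^ k ∣ A := by
    have h2 : A ≡ r [MOD p ^ k] := h.of_dvd (pow_dvd_pow p (Nat.le_succ k))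
    refine (Nat.ModEq.dvd_iff h2 dvd_rfl).mpr ?_
    exact (hp.pow_dvd_iff_le_factorization hr.ne').mpr hk.ge
  have h2 : ¬ p ^ (k + 1) ∣ A := by
    intro h3
    have h4 := (Nat.ModEq.dvd_iff h dvd_rfl).mp h3
    have h5 := (hp.pow_dvd_iff_le_factorization hr.ne').mp h4
    omega
  have h3 := (hp.pow_dvd_iff_le_factorization hA.ne').mp h1
  have h4 : ¬ k + 1 ≤ A.factorization p := fun h5 => h2 ((hp.pow_dvd_iff_le_factorization hA.ne').mpr h5)
  omega

theorem val_add {p A y : ℕ} (hp : p.Prime) (hy : 0 < y) (h : y.factorization p < A.factorization p) :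
    (A + y).factorization p = y.factorization p := by
  have hA : A ≠ 0 := by
    rintro rfl
    simp at h
  have h1 : p ^ (y.factorization p + 1) ∣ A := (hp.pow_dvd_iff_le_factorization hA).mpr h
  refine val_of_mod hp (by omega) hy rfl ?_
  have h2 : A + y ≡ 0 + y [MOD p ^ (y.factorization p + 1)] :=
    Nat.ModEq.add_right y ((Nat.modEq_zero_iff_dvd).mpr h1)
  rwa [zero_add] at h2

/-- `A ≡ 0` mod a high power -/
theorem val_add' {p A y e : ℕ} (hp : p.Prime) (hy : 0 < y) (he : y.factorization p < e) (h : p ^ e ∣ A) :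
    (A + y).factorization p = y.factorization p := by
  have h1 : p ^ (y.factorization p + 1) ∣ A := (pow_dvd_pow p he).trans h
  refine val_of_mod hp (by omega) hy rfl ?_
  have h2 : A + y ≡ 0 + y [MOD p ^ (y.factorization p + 1)] :=
    Nat.ModEq.add_right y ((Nat.modEq_zero_iff_dvd).mpr h1)
  rwa [zero_add] at h2

-- MODULE s_c3
/-- a digit: a residue `r` with `v_p(r) = e` such that adding `A ≡ r` does not change the valuations of the `y u` -/
theorem digit {p e w : ℕ} (hp : p.Prime) (hw : w + 1 < p) (y : ℕ → ℕ) (hy : ∀ u < w, 0 < y u)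
    (he : ∀ u < w, (y u).factorization p ≤ e) : ∃ r : ℕ, ∀ A : ℕ, 0 < A → A ≡ r [MOD p ^ (e + 1)] →
      A.factorization p = e ∧ ∀ u < w, (A + y u).factorization p = (y u).factorization p := by
  have hp0 : 0 < p := hp.pos
  have hcard : ((range w).image fun u => (p - (y u / p ^ e) % p) % p).card < (Icc 1 (p - 1)).card := by
    refine lt_of_le_of_lt Finset.card_image_le ?_
    rw [Finset.card_range, Nat.card_Icc]
    omega
  obtain ⟨d, hd, hd2⟩ := Finset.exists_mem_notMem_of_card_lt_card hcard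
  rw [Finset.mem_Icc] at hd
  have hpe : 0 < p ^ e := pow_pos hp0 e
  have hdf : (d * p ^ e).factorization p = e := by
    rw [Nat.factorization_mul (by omega) hpe.ne', hp.factorization_pow]
    have h1 : d.factorization p = 0 := Nat.factorization_eq_zero_of_not_dvd fun h2 =>
      absurd (Nat.le_of_dvd (by omega) h2) (by omega)
    simp [h1]
  refine ⟨d * p ^ e, fun A hA hmod => ?_⟩
  have hAe : A.factorization p = e := val_of_mod hp hA (Nat.mul_pos (by omega) hpe) hdf hmod
  refine ⟨hAe, fun u hu => ?_⟩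
  rcases lt_or_eq_of_le (he u hu) with h1 | h1
  · exact val_add hp (hy u hu) (by rw [hAe]; exact h1)
  · rw [h1]
    obtain ⟨m, hm⟩ : p ^ e ∣ y u := (hp.pow_dvd_iff_le_factorization (hy u hu).ne').mpr h1.ge
    have hdiv : y u / p ^ e = m := by
      rw [hm, Nat.mul_div_cancel_left _ hpe]
    have hnd : ¬ p ∣ d + m := by
      intro h2
      apply hd2
      refine Finset.mem_image.mpr ⟨u, Finset.mem_range.mpr hu, ?_⟩
      change (p - (y u / p ^ e) % p) % p = d
      rw [hdiv]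
      have h3 : (d + m) % p = 0 := Nat.mod_eq_zero_of_dvd h2
      rw [Nat.add_mod, Nat.mod_eq_of_lt (show d < p by omega)] at h3
      have h4 : m % p < p := Nat.mod_lt _ hp0
      generalize m % p = q at h3 h4
      have h5 : d + q = p := by
        rcases lt_trichotomy (d + q) p with h6 | h6 | h6
        · rw [Nat.mod_eq_of_lt h6] at h3
          omega
        · exact h6
        · have h7 : (d + q) % p = d + q - p := by
            rw [Nat.mod_eq_sub_mod h6.le, Nat.mod_eq_of_lt (by omega)]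
          omega
      have h6 : p - q = d := by omega
      rw [h6, Nat.mod_eq_of_lt (by omega)]
    have h2 : A + y u ≡ d * p ^ e + p ^ e * m [MOD p ^ (e + 1)] := by
      rw [hm]
      exact Nat.ModEq.add_right _ hmod
    refine val_of_mod hp (by omega) (r := d * p ^ e + p ^ e * m)
      (Nat.add_pos_left (Nat.mul_pos (by omega) hpe) _) ?_ h2
    have h3 : d * p ^ e + p ^ e * m = (d + m) * p ^ e := by ring
    rw [h3, Nat.factorization_mul (by omega) hpe.ne', hp.factorization_pow]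
    have h4 : (d + m).factorization p = 0 := Nat.factorization_eq_zero_of_not_dvd hnd
    simp [h4]

-- MODULE s_c4
/-- raising: `v_p(y) = 1`, `A ≡ -y` mod `p²` -/
theorem raise {p y : ℕ} (hp : p.Prime) (hy : y.factorization p = 1) : ∃ r : ℕ, ∀ A : ℕ, 0 < A →
    A ≡ r [MOD p ^ 2] → A.factorization p = 1 ∧ 2 ≤ (A + y).factorization p := by
  have hy0 : y ≠ 0 := by
    rintro rfl
    simp at hy
  have hp2 : 2 ≤ p ^ 2 := by
    have := hp.two_le
    nlinarith
  obtain ⟨m, hm⟩ : p ∣ y := by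
    have := (hp.pow_dvd_iff_le_factorization hy0).mpr hy.ge
    rwa [pow_one] at this
  have hr : (p ^ 2 - 1) * y + y = p ^ 2 * y := by
    rw [Nat.sub_mul, one_mul]
    have : y ≤ p ^ 2 * y := Nat.le_mul_of_pos_left y (by omega)
    omega
  have hrf : ((p ^ 2 - 1) * y).factorization p = 1 := by
    rw [Nat.factorization_mul (by omega) hy0]
    have h4 : (p ^ 2 - 1).factorization p = 0 := by
      refine Nat.factorization_eq_zero_of_not_dvd fun h5 => ?_
      have h6 : p ∣ p ^ 2 - (p ^ 2 - 1) := Nat.dvd_sub (dvd_pow_self p (by norm_num)) h5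
      have h7 : p ^ 2 - (p ^ 2 - 1) = 1 := by omega
      rw [h7] at h6
      exact hp.one_lt.ne' (Nat.dvd_one.mp h6)
    simp [h4, hy]
  refine ⟨(p ^ 2 - 1) * y, fun A hA hmod => ⟨?_, ?_⟩⟩
  · exact val_of_mod hp hA (Nat.mul_pos (by omega) (by omega)) hrf hmod
  · have h1 : A + y ≡ p ^ 2 * y [MOD p ^ 2] := by
      rw [← hr]
      exact Nat.ModEq.add_right y hmod
    have h2 : p ^ 2 ∣ A + y := (Nat.ModEq.dvd_iff h1 dvd_rfl).mpr (dvd_mul_right _ _)
    exact (hp.pow_dvd_iff_le_factorization (by omega)).mp h2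

/-- inserting: `A ≡ -y + p^E` mod `p^(E+1)` -/
theorem insert_mod {p y E : ℕ} (hp : p.Prime) (hE : 1 ≤ E) (hy : ¬ p ∣ y) : ∃ r : ℕ, ∀ A : ℕ,
    A ≡ r [MOD p ^ (E + 1)] → (A + y).factorization p = E := by
  have hy0 : y ≠ 0 := fun h0 => hy (h0 ▸ dvd_zero p)
  have hpE : 0 < p ^ (E + 1) := pow_pos hp.pos _
  have hr : p ^ (E + 1) * y + p ^ E - y + y = p ^ (E + 1) * y + p ^ E := by
    have : y ≤ p ^ (E + 1) * y := Nat.le_mul_of_pos_left y hpE
    omega
  refine ⟨p ^ (E + 1) * y + p ^ E - y, fun A hmod => ?_⟩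
  have h1 : A + y ≡ p ^ E [MOD p ^ (E + 1)] := by
    have h2 : A + y ≡ p ^ (E + 1) * y + p ^ E [MOD p ^ (E + 1)] := by
      rw [← hr]
      exact Nat.ModEq.add_right y hmod
    have h3 : p ^ (E + 1) * y + p ^ E ≡ 0 + p ^ E [MOD p ^ (E + 1)] :=
      Nat.ModEq.add_right _ ((Nat.modEq_zero_iff_dvd).mpr (dvd_mul_right _ _))
    rw [zero_add] at h3
    exact h2.trans h3
  exact val_of_mod hp (by omega) (pow_pos hp.pos _) (by rw [hp.factorization_pow]; simp) h1

-- MODULE s_c5
/-- differences -/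
theorem dvd_add_diff {A a b : ℕ} (hab : a < b) (h : (b - a) ∣ a) (hA : (b - a) ∣ A) :
    (A + b - (A + a)) ∣ A + a := by
  have h1 : A + b - (A + a) = b - a := by omega
  rw [h1]
  exact Nat.dvd_add hA h

theorem gcd_eq_diff {a b : ℕ} (hab : a < b) (h : (b - a) ∣ a) : a.gcd b = b - a := by
  refine Nat.dvd_antisymm ?_ ?_
  · exact Nat.dvd_sub (Nat.gcd_dvd_right a b) (Nat.gcd_dvd_left a b)
  · refine Nat.dvd_gcd h ?_
    have h1 : b = a + (b - a) := by omega
    rw [h1]
    exact Nat.dvd_add (by rwa [← h1]) (by rw [← h1])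

/-- a common prime of `A + a`, `A + b` divides `a` and `b` -/
theorem common_prime {A a b p : ℕ} (hp : p.Prime) (hab : a < b) (h : (b - a) ∣ a) (h1 : p ∣ A + a) (h2 : p ∣ A + b) :
    p ∣ a ∧ p ∣ b := by
  have h3 : p ∣ b - a := by
    have h4 := Nat.dvd_sub h2 h1
    have h5 : A + b - (A + a) = b - a := by omega
    rwa [h5] at h4
  have h6 : p ∣ a := h3.trans h
  refine ⟨h6, ?_⟩
  have h7 : b = a + (b - a) := by omega
  rw [h7]
  exact Nat.dvd_add h6 h3

end Pool.Agent.Sh
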