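import Mathlib

/-!
# MP_fa09f8_nt, theorem S: definitions

The type of `(ℤ/s)ˣ`: `T s ℓ c` is the number of cyclic factors of order exactly `ℓ^c` (`c ≥ 1`) of its `ℓ`-part.
-/

set_option autoImplicit false

namespace Pool.Agent.Sh

open Finset

/-- number of cyclic factors `ℤ/ℓ^c`, `c ≥ 1`, in the `ℓ`-part of `(ℤ/p^v)ˣ` -/
def cmp (p v ℓ c : ℕ) : ℕ :=
  if v = 0 then 0
  else if p = 2 then
    (if ℓ = 2 ∧ c = 1 ∧ 2 ≤ v then 1 else 0) + (if ℓ = 2 ∧ c = v - 2 ∧ 3 ≤ v then 1 else 0)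
  else if (p ^ (v - 1) * (p - 1)).factorization ℓ = c then 1 else 0

/-- the type of `(ℤ/s)ˣ` -/
def T (s ℓ c : ℕ) : ℕ := ∑ p ∈ s.primeFactors, cmp p (s.factorization p) ℓ c

/-- the type of `(ℤ/(a/gcd(a,b)))ˣ` -/
def TD (a b ℓ c : ℕ) : ℕ := ∑ p ∈ a.primeFactors, cmp p (a.factorization p - b.factorization p) ℓ c

/-- the type of a cyclic group of order `m` -/
def vec (m ℓ c : ℕ) : ℕ := if m.factorization ℓ = c then 1 else 0

/-- the primes `p > z` dividing `y u` to the top level -/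
def Top (z w : ℕ) (y : ℕ → ℕ) (u : ℕ) : Finset ℕ :=
  (y u).primeFactors.filter fun p => z < p ∧ ∀ v < w, (y v).factorization p ≤ (y u).factorization p

/-- the potential -/
def FF (z w : ℕ) (y g : ℕ → ℕ) (u ℓ c : ℕ) : ℕ := T (g u) ℓ c + ∑ p ∈ Top z w y u, cmp p 1 ℓ c

/-- the set `S` of primes -/
structure GoodS (S : Finset ℕ) (z : ℕ) : Prop where
  prime : ∀ ℓ ∈ S, ℓ.Prime
  le : ∀ ℓ ∈ S, ℓ ≤ z
  two : 2 ∈ S

/-- a state of size `w` -/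
structure IsState (S : Finset ℕ) (z w : ℕ) (y g : ℕ → ℕ) : Prop where
  pos : ∀ u < w, 0 < y u
  gpos : ∀ u < w, 0 < g u
  ne : ∀ u < w, ∀ v < w, u ≠ v → y u ≠ y v
  dvd : ∀ u < w, ∀ v < w, y u < y v → (y v - y u) ∣ y u
  bal : ∀ u < w, ∀ v < w, u ≠ v → ∀ ℓ ∈ S, ∀ c, 1 ≤ c →
    TD (y u) (y v) ℓ c + FF z w y g v ℓ c = TD (y v) (y u) ℓ c + FF z w y g u ℓ c

/-- types of products of cyclic groups of even order -/
def EvT (f : ℕ → ℕ → ℕ) : Prop :=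
  ∃ L : List ℕ, (∀ m ∈ L, 0 < m ∧ 2 ∣ m) ∧ ∀ ℓ c, 1 ≤ c → f ℓ c = (L.map fun m => vec m ℓ c).sum

end Pool.Agent.Sh
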