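import Pool.Agent.Sh.Ty

/-! # Theorem S: realising types by products of new primes (Dirichlet) -/

set_option autoImplicit false

namespace Pool.Agent.Sh

open Finset

-- MODULE s_v1
theorem EvT_add {f f' : ℕ → ℕ → ℕ} (h : EvT f) (h' : EvT f') : EvT (fun ℓ c => f ℓ c + f' ℓ c) := by
  obtain ⟨L, h1, h2⟩ := h
  obtain ⟨L', h1', h2'⟩ := h'
  refine ⟨L ++ L', fun m hm => ?_, fun ℓ c hc => ?_⟩
  · rcases List.mem_append.mp hm with h | h
    · exact h1 m h
    · exact h1' m h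
  · rw [List.map_append, List.sum_append, ← h2 ℓ c hc, ← h2' ℓ c hc]

theorem EvT_sum {ι : Type} (s : Finset ι) (f : ι → ℕ → ℕ → ℕ) (h : ∀ i ∈ s, EvT (f i)) :
    EvT (fun ℓ c => ∑ i ∈ s, f i ℓ c) := by
  classical
  induction s using Finset.induction_on with
  | empty => exact ⟨[], by simp, by simp⟩
  | insert a s ha ih =>
    have h1 : EvT (fun ℓ c => f a ℓ c + ∑ i ∈ s, f i ℓ c) :=
      EvT_add (h a (mem_insert_self a s)) (ih fun i hi => h i (mem_insert_of_mem hi))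
    have h2 : (fun ℓ c => ∑ i ∈ insert a s, f i ℓ c) =
        fun ℓ c => f a ℓ c + ∑ i ∈ s, f i ℓ c := by
      funext ℓ c
      rw [sum_insert ha]
    rw [h2]
    exact h1

theorem EvT_vec {m : ℕ} (hm : 0 < m) (h2 : 2 ∣ m) : EvT (vec m) := by
  exact ⟨[m], fun k hk => by rw [List.mem_singleton] at hk; rw [hk]; exact ⟨hm, h2⟩,
    fun ℓ c _ => by simp⟩

private theorem s_v1_fac {e : ℕ} (ℓ c : ℕ) (hc : 1 ≤ c) :
    vec (2 ^ e) ℓ c = if ℓ = 2 ∧ c = e then 1 else 0 := by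
  rw [vec, Nat.Prime.factorization_pow Nat.prime_two]
  by_cases h : ℓ = 2
  · subst h
    rw [Finsupp.single_eq_same]
    by_cases h2 : c = e
    · simp [h2]
    · rw [if_neg (fun h3 => h2 h3.symm), if_neg (fun h3 => h2 h3.2)]
  · have h0 : (Finsupp.single 2 e : ℕ →₀ ℕ) ℓ = 0 :=
      Finsupp.single_eq_of_ne h
    rw [h0, if_neg (by omega), if_neg (fun h3 => h h3.1)]

theorem EvT_cmp {p : ℕ} (hp : p.Prime) (v : ℕ) : EvT (cmp p v) := by
  rcases Nat.eq_zero_or_pos v with hv | hv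
  · refine ⟨[], by simp, fun ℓ c _ => ?_⟩
    simp [cmp, hv]
  · by_cases hp2 : p = 2
    · have h1 : EvT (fun ℓ c => if ℓ = 2 ∧ c = 1 ∧ 2 ≤ v then 1 else 0) := by
        by_cases h2 : 2 ≤ v
        · refine ⟨[2], by simp, fun ℓ c hc => ?_⟩
          have := s_v1_fac (e := 1) ℓ c hc
          rw [pow_one] at this
          simp [this, h2]
        · refine ⟨[], by simp, fun ℓ c _ => ?_⟩
          simp [h2]
      have h2 : EvT (fun ℓ c => if ℓ = 2 ∧ c = v - 2 ∧ 3 ≤ v then 1 else 0) := by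
        by_cases h3 : 3 ≤ v
        · refine ⟨[2 ^ (v - 2)], ?_, fun ℓ c hc => ?_⟩
          · intro m hm
            rw [List.mem_singleton] at hm
            rw [hm]
            exact ⟨by positivity, dvd_pow_self 2 (by omega)⟩
          · have := s_v1_fac (e := v - 2) ℓ c hc
            simp [this, h3]
        · refine ⟨[], by simp, fun ℓ c _ => ?_⟩
          simp [h3]
      have h3 : cmp p v = fun ℓ c => (if ℓ = 2 ∧ c = 1 ∧ 2 ≤ v then 1 else 0) +
          (if ℓ = 2 ∧ c = v - 2 ∧ 3 ≤ v then 1 else 0) := by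
        funext ℓ c
        rw [cmp, if_neg (by omega), if_pos hp2]
      rw [h3]
      exact EvT_add h1 h2
    · have h3 : cmp p v = vec (p ^ (v - 1) * (p - 1)) := by
        funext ℓ c
        rw [cmp, if_neg (by omega), if_neg hp2, vec]
      rw [h3]
      have hodd : p % 2 = 1 := hp.eq_two_or_odd.resolve_left hp2
      have hp1 := hp.two_le
      exact EvT_vec (Nat.mul_pos (pow_pos hp.pos _) (by omega))
        (dvd_mul_of_dvd_right (by omega) _)

theorem EvT_T (s : ℕ) : EvT (T s) := by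
  have h := EvT_sum s.primeFactors (fun p => cmp p (s.factorization p))
    fun p hp => EvT_cmp (Nat.prime_of_mem_primeFactors hp) _
  exact h

theorem EvT_FF (z w : ℕ) (y g : ℕ → ℕ) (u : ℕ) : EvT (FF z w y g u) := by
  have h := EvT_sum (Top z w y u) (fun p => cmp p 1)
    fun p hp => EvT_cmp (Nat.prime_of_mem_primeFactors (mem_filter.mp hp).1) _
  exact EvT_add (EvT_T (g u)) h

-- MODULE s_v2
/-- Dirichlet: a prime `p > N` with `v_ℓ(p - 1) = v_ℓ(m)` for all `ℓ ∈ S` -/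
theorem dirichlet {S : Finset ℕ} {z : ℕ} (hS : GoodS S z) {m : ℕ} (hm : 0 < m) (h2 : 2 ∣ m) (N : ℕ) :
    ∃ p : ℕ, p.Prime ∧ N < p ∧ ∀ ℓ ∈ S, (p - 1).factorization ℓ = m.factorization ℓ := by
  classical
  have hco : Set.Pairwise (S : Set ℕ)
      (Function.onFun Nat.Coprime fun ℓ => ℓ ^ (m.factorization ℓ + 1)) := by
    intro a ha b hb hab
    exact Nat.Coprime.pow _ _ ((Nat.coprime_primes (hS.prime a ha) (hS.prime b hb)).mpr hab)
  obtain ⟨k, hk⟩ := Nat.chineseRemainderOfFinset (fun ℓ => 1 + ℓ ^ (m.factorization ℓ))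
    (fun ℓ => ℓ ^ (m.factorization ℓ + 1)) S (fun ℓ hℓ => pow_ne_zero _ (hS.prime ℓ hℓ).ne_zero) hco
  have hM0 : ∏ ℓ ∈ S, ℓ ^ (m.factorization ℓ + 1) ≠ 0 :=
    prod_ne_zero_iff.mpr fun ℓ hℓ => pow_ne_zero _ (hS.prime ℓ hℓ).ne_zero
  have : NeZero (∏ ℓ ∈ S, ℓ ^ (m.factorization ℓ + 1)) := ⟨hM0⟩
  have hunit : IsUnit ((k : ℕ) : ZMod (∏ ℓ ∈ S, ℓ ^ (m.factorization ℓ + 1))) := by
    rw [ZMod.isUnit_iff_coprime]
    refine Nat.Coprime.prod_right fun ℓ hℓ => Nat.Coprime.pow_right _ ?_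
    rw [Nat.coprime_comm, (hS.prime ℓ hℓ).coprime_iff_not_dvd]
    intro hdvd
    have h1 : k ≡ 1 + ℓ ^ (m.factorization ℓ) [MOD ℓ] :=
      (hk ℓ hℓ).of_dvd (dvd_pow_self ℓ (Nat.succ_ne_zero _))
    have h3 : ℓ ∣ 1 + ℓ ^ (m.factorization ℓ) := (h1.dvd_iff dvd_rfl).mp hdvd
    rcases Nat.eq_zero_or_pos (m.factorization ℓ) with h4 | h4
    · rw [h4, pow_zero] at h3
      have h5 : ℓ = 2 := (Nat.prime_dvd_prime_iff_eq (hS.prime ℓ hℓ) Nat.prime_two).mp h3
      rw [h5] at h4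
      have h6 := (Nat.prime_two.dvd_iff_one_le_factorization hm.ne').mp h2
      omega
    · have h5 : ℓ ∣ 1 := (Nat.dvd_add_left (dvd_pow_self ℓ (by omega))).mp h3
      exact (hS.prime ℓ hℓ).one_lt.ne' (Nat.dvd_one.mp h5)
  obtain ⟨p, hpN, hp, hpk⟩ := Nat.forall_exists_prime_gt_and_eq_mod hunit N
  refine ⟨p, hp, hpN, fun ℓ hℓ => ?_⟩
  have h1 : p ≡ k [MOD ∏ ℓ ∈ S, ℓ ^ (m.factorization ℓ + 1)] :=
    (ZMod.natCast_eq_natCast_iff _ _ _).mp hpk
  have h3 : p ≡ 1 + ℓ ^ (m.factorization ℓ) [MOD ℓ ^ (m.factorization ℓ + 1)] :=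
    (h1.of_dvd (dvd_prod_of_mem (fun ℓ => ℓ ^ (m.factorization ℓ + 1)) hℓ)).trans (hk ℓ hℓ)
  have hp1 : 1 ≤ p := hp.one_lt.le
  have h4 : p - 1 ≡ ℓ ^ (m.factorization ℓ) [MOD ℓ ^ (m.factorization ℓ + 1)] := by
    refine Nat.ModEq.add_left_cancel' 1 ?_
    rw [Nat.add_sub_cancel' hp1]
    exact h3
  have hℓp := hS.prime ℓ hℓ
  have hp10 : p - 1 ≠ 0 := by have := hp.one_lt; omega
  have h5 : ℓ ^ (m.factorization ℓ) ∣ p - 1 :=
    (h4.dvd_iff (pow_dvd_pow ℓ (Nat.le_succ _))).mpr dvd_rfl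
  have h6 : ¬ ℓ ^ (m.factorization ℓ + 1) ∣ p - 1 := by
    intro h7
    have h8 := (h4.dvd_iff dvd_rfl).mp h7
    have h9 := (Nat.pow_dvd_pow_iff_le_right hℓp.one_lt).mp h8
    omega
  have h7 := (hℓp.pow_dvd_iff_le_factorization hp10).mp h5
  have h8 : ¬ m.factorization ℓ + 1 ≤ (p - 1).factorization ℓ := fun h =>
    h6 ((hℓp.pow_dvd_iff_le_factorization hp10).mpr h)
  omega

-- MODULE s_v3
private theorem s_v3_list {S : Finset ℕ} {z : ℕ} (hS : GoodS S z) (L : List ℕ)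
    (hL : ∀ m ∈ L, 0 < m ∧ 2 ∣ m) (N : ℕ) :
    ∃ R : Finset ℕ, (∀ p ∈ R, p.Prime ∧ N < p) ∧
      ∀ ℓ ∈ S, ∀ c, 1 ≤ c → ∑ p ∈ R, cmp p 1 ℓ c = (L.map fun m => vec m ℓ c).sum := by
  classical
  induction L with
  | nil => exact ⟨∅, by simp, by simp⟩
  | cons m L ih =>
    obtain ⟨R, h1, h2⟩ := ih fun k hk => hL k (List.mem_cons_of_mem m hk)
    obtain ⟨hm, hm2⟩ := hL m List.mem_cons_self
    obtain ⟨p, hp, hpN, hpS⟩ := dirichlet hS hm hm2 (max N (R.sup id))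
    have hpR : p ∉ R := by
      intro h
      have h3 : p ≤ R.sup id := le_sup (f := id) h
      have h4 := (le_max_right N (R.sup id)).trans_lt hpN
      omega
    have hp2 : p ≠ 2 := by
      intro h
      have h3 := hpS 2 hS.two
      rw [h] at h3
      have h4 := (Nat.prime_two.dvd_iff_one_le_factorization hm.ne').mp hm2
      have h5 : (2 - 1).factorization 2 = 0 := by simp
      omega
    refine ⟨insert p R, fun q hq => ?_, fun ℓ hℓ c hc => ?_⟩
    · rcases mem_insert.mp hq with h | h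
      · rw [h]
        exact ⟨hp, (le_max_left N _).trans_lt hpN⟩
      · exact h1 q h
    · rw [sum_insert hpR, h2 ℓ hℓ c hc, List.map_cons, List.sum_cons]
      congr 1
      rw [cmp, if_neg one_ne_zero, if_neg hp2, vec, Nat.sub_self, pow_zero, one_mul, hpS ℓ hℓ]

/-- realising a family of even types by disjoint sets of new primes -/
theorem realize {S : Finset ℕ} {z : ℕ} (hS : GoodS S z) (w : ℕ) (f : ℕ → ℕ → ℕ → ℕ) (hf : ∀ u < w, EvT (f u)) (N : ℕ) :
    ∃ R : ℕ → Finset ℕ, (∀ u < w, ∀ p ∈ R u, p.Prime ∧ N < p) ∧ (∀ u < w, ∀ v < w, u ≠ v → Disjoint (R u) (R v)) ∧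
      ∀ u < w, ∀ ℓ ∈ S, ∀ c, 1 ≤ c → ∑ p ∈ R u, cmp p 1 ℓ c = f u ℓ c := by
  classical
  induction w with
  | zero =>
    exact ⟨fun _ => ∅, fun u hu => absurd hu (Nat.not_lt_zero u),
      fun u hu => absurd hu (Nat.not_lt_zero u), fun u hu => absurd hu (Nat.not_lt_zero u)⟩
  | succ w ih =>
    obtain ⟨R, h1, h2, h3⟩ := ih fun u hu => hf u (Nat.lt_succ_of_lt hu)
    obtain ⟨L, hL1, hL2⟩ := hf w (Nat.lt_succ_self w)
    obtain ⟨R', h4, h5⟩ := s_v3_list hS L hL1 (max N (((range w).biUnion R).sup id))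
    have hdis : ∀ u < w, Disjoint (R u) R' := by
      intro u hu
      rw [disjoint_left]
      intro p hp hp'
      have h6 := (h4 p hp').2
      have h7 : p ≤ ((range w).biUnion R).sup id :=
        le_sup (f := id) (mem_biUnion.mpr ⟨u, mem_range.mpr hu, hp⟩)
      have h8 := (le_max_right N (((range w).biUnion R).sup id)).trans_lt h6
      omega
    refine ⟨fun u => if u = w then R' else R u, fun u hu p hp => ?_, fun u hu v hv huv => ?_,
      fun u hu ℓ hℓ c hc => ?_⟩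
    · dsimp only at hp
      split_ifs at hp with h
      · exact ⟨(h4 p hp).1, (le_max_left N _).trans_lt (h4 p hp).2⟩
      · exact h1 u (by omega) p hp
    · dsimp only
      split_ifs with h6 h7 h7
      · exact absurd (h6.trans h7.symm) huv
      · exact (hdis v (by omega)).symm
      · exact hdis u (by omega)
      · exact h2 u (by omega) v (by omega) huv
    · dsimp only
      split_ifs with h6
      · rw [h6, hL2 ℓ c hc]
        exact h5 ℓ hℓ c hc
      · exact h3 u (by omega) ℓ hℓ c hc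

end Pool.Agent.Sh
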