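import Pool.Agent.Sh.Ty
import Pool.Agent.UGrp.Iso

/-! # Theorem S: groups with equal types -/

set_option autoImplicit false

namespace Pool.Agent.Sh

open Finset Pool.Agent.UGrp

/-- products of cyclic groups -/
def LG : List ℕ → Type
  | [] => Unit
  | m :: L => Cy m × LG L

noncomputable instance instLG : (L : List ℕ) → CommGroup (LG L)
  | [] => inferInstanceAs (CommGroup Unit)
  | m :: L => @Prod.instCommGroup (Cy m) (LG L) _ (instLG L)

private def g1_cons (m : ℕ) (L : List ℕ) : LG (m :: L) ≃* Cy m × LG L where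
  toFun x := x
  invFun x := x
  left_inv _ := rfl
  right_inv _ := rfl
  map_mul' _ _ := rfl

private def g1_nil : LG [] ≃* Unit where
  toFun x := x
  invFun x := x
  left_inv _ := rfl
  right_inv _ := rfl
  map_mul' _ _ := rfl

private def g1_unit (G : Type) [Group G] : G ≃* Unit × G where
  toFun x := ((), x)
  invFun x := x.2
  left_inv _ := rfl
  right_inv _ := rfl
  map_mul' _ _ := rfl

private def g1_swap (A B C : Type) [Group A] [Group B] [Group C] : A × (B × C) ≃* B × (A × C) where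
  toFun x := (x.2.1, (x.1, x.2.2))
  invFun x := (x.2.1, (x.1, x.2.2))
  left_inv _ := rfl
  right_inv _ := rfl
  map_mul' _ _ := rfl

private def g1_four (A B C D : Type) [Group A] [Group B] [Group C] [Group D] :
    (A × B) × (C × D) ≃* (A × C) × (B × D) where
  toFun x := ((x.1.1, x.2.1), (x.1.2, x.2.2))
  invFun x := ((x.1.1, x.2.1), (x.1.2, x.2.2))
  left_inv _ := rfl
  right_inv _ := rfl
  map_mul' _ _ := rfl

-- MODULE s_g1
theorem LG_append (L M : List ℕ) : Nonempty (LG (L ++ M) ≃* LG L × LG M) := by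
  induction L with
  | nil => exact ⟨(g1_unit (LG M)).trans (g1_nil.symm.prodCongr (MulEquiv.refl _))⟩
  | cons m L ih =>
    obtain ⟨e⟩ := ih
    have e1 : LG (m :: L ++ M) ≃* Cy m × LG (L ++ M) := g1_cons m (L ++ M)
    exact ⟨(e1.trans ((MulEquiv.refl (Cy m)).prodCongr e)).trans
      ((MulEquiv.prodAssoc (M := Cy m) (N := LG L) (P := LG M)).symm.trans
        ((g1_cons m L).symm.prodCongr (MulEquiv.refl _)))⟩

theorem LG_perm {L M : List ℕ} (h : L.Perm M) : Nonempty (LG L ≃* LG M) := by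
  induction h with
  | nil => exact ⟨MulEquiv.refl _⟩
  | cons m _ ih =>
    obtain ⟨e⟩ := ih
    exact ⟨(g1_cons m _).trans (((MulEquiv.refl (Cy m)).prodCongr e).trans (g1_cons m _).symm)⟩
  | swap a b L =>
    exact ⟨((g1_cons b _).trans ((MulEquiv.refl (Cy b)).prodCongr (g1_cons a L))).trans
      ((g1_swap (Cy b) (Cy a) (LG L)).trans
        (((MulEquiv.refl (Cy a)).prodCongr (g1_cons b L).symm).trans (g1_cons a _).symm))⟩
  | trans _ _ ih1 ih2 =>
    obtain ⟨e1⟩ := ih1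
    obtain ⟨e2⟩ := ih2
    exact ⟨e1.trans e2⟩

theorem LG_card (L : List ℕ) : Nat.card (LG L) = L.prod := by
  induction L with
  | nil =>
    rw [Nat.card_congr g1_nil.toEquiv, List.prod_nil]
    simp
  | cons m L ih =>
    rw [Nat.card_congr (g1_cons m L).toEquiv, Nat.card_prod, cy_card, ih, List.prod_cons]

-- MODULE s_g2
/-- the `ℓ`-part and the rest -/
theorem LG_split (ℓ : ℕ) (L : List ℕ) (hℓ : ℓ.Prime) (hL : ∀ m ∈ L, 0 < m) :
    Nonempty (LG L ≃* LG (L.map fun m => ℓ ^ m.factorization ℓ) × LG (L.map fun m => m / ℓ ^ m.factorization ℓ)) := by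
  induction L with
  | nil => exact ⟨g1_nil.trans ((g1_unit Unit).trans (g1_nil.symm.prodCongr g1_nil.symm))⟩
  | cons m L ih =>
    obtain ⟨e⟩ := ih fun k hk => hL k (List.mem_cons_of_mem _ hk)
    have hm : 0 < m := hL m List.mem_cons_self
    have hcop : (ℓ ^ m.factorization ℓ).Coprime (m / ℓ ^ m.factorization ℓ) :=
      Nat.Coprime.pow_left _ (Nat.coprime_ordCompl hℓ hm.ne')
    obtain ⟨e1⟩ := cy_mul hcop
    have hmul : ℓ ^ m.factorization ℓ * (m / ℓ ^ m.factorization ℓ) = m := Nat.ordProj_mul_ordCompl_eq_self m ℓ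
    rw [hmul] at e1
    have e2 := (g1_cons m L).trans ((e1.prodCongr e).trans (g1_four _ _ _ _))
    exact ⟨e2.trans ((g1_cons (ℓ ^ m.factorization ℓ) (L.map fun m => ℓ ^ m.factorization ℓ)).symm.prodCongr
      (g1_cons (m / ℓ ^ m.factorization ℓ) (L.map fun m => m / ℓ ^ m.factorization ℓ)).symm)⟩

private theorem g3_filter (ℓ : ℕ) (L : List ℕ) :
    Nonempty (LG (L.map fun m => ℓ ^ m.factorization ℓ) ≃*
      LG (((L.map fun m => m.factorization ℓ).filter fun c => c ≠ 0).map fun c => ℓ ^ c)) := by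
  induction L with
  | nil => exact ⟨MulEquiv.refl _⟩
  | cons m L ih =>
    obtain ⟨e⟩ := ih
    have e1 := (g1_cons (ℓ ^ m.factorization ℓ) (L.map fun m => ℓ ^ m.factorization ℓ)).trans
      ((MulEquiv.refl _).prodCongr e)
    by_cases h : m.factorization ℓ = 0
    · have h1 : (((m :: L).map fun m => m.factorization ℓ).filter fun c => c ≠ 0) =
          ((L.map fun m => m.factorization ℓ).filter fun c => c ≠ 0) := by
        rw [List.map_cons, List.filter_cons_of_neg (by simp [h])]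
      rw [h1]
      have hsub : Subsingleton (Cy (ℓ ^ m.factorization ℓ)) := by
        rw [h, pow_zero]
        exact inferInstanceAs (Subsingleton (ZMod 1))
      have e3 : Cy (ℓ ^ m.factorization ℓ) ≃* Unit :=
        { toFun := fun _ => (), invFun := fun _ => 1, left_inv := fun x => Subsingleton.elim _ _,
          right_inv := fun _ => rfl, map_mul' := fun _ _ => rfl }
      exact ⟨e1.trans ((e3.prodCongr (MulEquiv.refl _)).trans (g1_unit _).symm)⟩
    · have h1 : (((m :: L).map fun m => m.factorization ℓ).filter fun c => c ≠ 0) =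
          m.factorization ℓ :: ((L.map fun m => m.factorization ℓ).filter fun c => c ≠ 0) := by
        rw [List.map_cons, List.filter_cons_of_pos (by simp [h])]
      rw [h1]
      exact ⟨e1.trans (g1_cons (ℓ ^ m.factorization ℓ) _).symm⟩

private theorem g3_count (ℓ c : ℕ) (L : List ℕ) :
    (L.map fun m => vec m ℓ c).sum = (L.map fun m => m.factorization ℓ).count c := by
  induction L with
  | nil => rfl
  | cons m L ih =>
    rw [List.map_cons, List.sum_cons, ih, List.map_cons, List.count_cons]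
    unfold vec
    by_cases h : m.factorization ℓ = c
    · simp [h, add_comm]
    · simp [h]

-- MODULE s_g3
/-- lists of powers of `ℓ` with the same exponents `≥ 1` -/
theorem LG_pow (ℓ : ℕ) (L M : List ℕ) (h : ∀ c, 1 ≤ c → (L.map fun m => vec m ℓ c).sum = (M.map fun m => vec m ℓ c).sum) :
    Nonempty (LG (L.map fun m => ℓ ^ m.factorization ℓ) ≃* LG (M.map fun m => ℓ ^ m.factorization ℓ)) := by
  obtain ⟨e1⟩ := g3_filter ℓ L
  obtain ⟨e2⟩ := g3_filter ℓ M
  have hp : ((L.map fun m => m.factorization ℓ).filter fun c => c ≠ 0).Perm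
      ((M.map fun m => m.factorization ℓ).filter fun c => c ≠ 0) := by
    rw [List.perm_iff_count]
    intro c
    by_cases hc : c = 0
    · subst hc
      rw [List.count_eq_zero_of_not_mem (by simp), List.count_eq_zero_of_not_mem (by simp)]
    · rw [List.count_filter (by simp [hc]), List.count_filter (by simp [hc]), ← g3_count, ← g3_count]
      exact h c (Nat.pos_of_ne_zero hc)
  obtain ⟨e3⟩ := LG_perm (hp.map fun c => ℓ ^ c)
  exact ⟨e1.trans (e3.trans e2.symm)⟩

private theorem g4_sum (ℓ ℓ' c : ℕ) (hℓ : ℓ.Prime) (hc : 1 ≤ c) (L : List ℕ) :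
    ((L.map fun m => m / ℓ ^ m.factorization ℓ).map fun m => vec m ℓ' c).sum =
      if ℓ' = ℓ then 0 else (L.map fun m => vec m ℓ' c).sum := by
  induction L with
  | nil => simp
  | cons m L ih =>
    rw [List.map_cons, List.map_cons, List.sum_cons, ih]
    by_cases h : ℓ' = ℓ
    · subst h
      rw [if_pos rfl, if_pos rfl, add_zero]
      unfold vec
      rw [Nat.factorization_ordCompl, Finsupp.erase_same, if_neg (by omega)]
    · rw [if_neg h, if_neg h, List.map_cons, List.sum_cons]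
      unfold vec
      rw [Nat.factorization_ordCompl, Finsupp.erase_ne h]

-- MODULE s_g4
/-- cancellation up to groups of order prime to `S` -/
theorem compare (S : List ℕ) (hS : ∀ ℓ ∈ S, ℓ.Prime) (L M : List ℕ) (hL : ∀ m ∈ L, 0 < m) (hM : ∀ m ∈ M, 0 < m)
    (h : ∀ ℓ ∈ S, ∀ c, 1 ≤ c → (L.map fun m => vec m ℓ c).sum = (M.map fun m => vec m ℓ c).sum) :
    ∃ A B : List ℕ, (∀ m ∈ A, 0 < m) ∧ (∀ m ∈ B, 0 < m) ∧ (∀ ℓ ∈ S, (∀ m ∈ A, ¬ ℓ ∣ m) ∧ ∀ m ∈ B, ¬ ℓ ∣ m) ∧
      (∀ q : ℕ, q.Prime → (∀ m ∈ L, ¬ q ∣ m) → (∀ m ∈ M, ¬ q ∣ m) → (∀ m ∈ A, ¬ q ∣ m) ∧ ∀ m ∈ B, ¬ q ∣ m) ∧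
      Nonempty (LG A × LG L ≃* LG B × LG M) := by
  induction S generalizing L M with
  | nil =>
    exact ⟨M, L, hM, hL, fun ℓ h0 => absurd h0 List.not_mem_nil, fun q _ h1 h2 => ⟨h2, h1⟩,
      ⟨MulEquiv.prodComm⟩⟩
  | cons ℓ S ih =>
    have hℓ : ℓ.Prime := hS ℓ List.mem_cons_self
    have hpos : ∀ L : List ℕ, (∀ m ∈ L, 0 < m) → ∀ m ∈ L.map (fun m => m / ℓ ^ m.factorization ℓ), 0 < m := by
      intro L hL m hm
      obtain ⟨k, hk, rfl⟩ := List.mem_map.mp hm
      exact Nat.ordCompl_pos ℓ (hL k hk).ne'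
    have hnd : ∀ L : List ℕ, (∀ m ∈ L, 0 < m) → ∀ m ∈ L.map (fun m => m / ℓ ^ m.factorization ℓ), ¬ ℓ ∣ m := by
      intro L hL m hm
      obtain ⟨k, hk, rfl⟩ := List.mem_map.mp hm
      exact Nat.not_dvd_ordCompl hℓ (hL k hk).ne'
    have hq : ∀ (q : ℕ) (L : List ℕ), (∀ m ∈ L, ¬ q ∣ m) →
        ∀ m ∈ L.map (fun m => m / ℓ ^ m.factorization ℓ), ¬ q ∣ m := by
      intro q L hL m hm
      obtain ⟨k, hk, rfl⟩ := List.mem_map.mp hm
      exact fun h => hL k hk (h.trans (Nat.ordCompl_dvd k ℓ))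
    obtain ⟨A, B, hA, hB, hAB, hqq, ⟨e⟩⟩ := ih (fun k hk => hS k (List.mem_cons_of_mem _ hk))
      (L.map fun m => m / ℓ ^ m.factorization ℓ) (M.map fun m => m / ℓ ^ m.factorization ℓ) (hpos L hL) (hpos M hM)
      (fun k hk c hc => by
        rw [g4_sum ℓ k c hℓ hc, g4_sum ℓ k c hℓ hc, h k (List.mem_cons_of_mem _ hk) c hc])
    obtain ⟨eL⟩ := LG_split ℓ L hℓ hL
    obtain ⟨eM⟩ := LG_split ℓ M hℓ hM
    obtain ⟨e1⟩ := LG_pow ℓ L M (h ℓ List.mem_cons_self)
    refine ⟨A, B, hA, hB, ?_, fun q hqp h1 h2 => hqq q hqp (hq q L h1) (hq q M h2), ?_⟩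
    · intro k hk
      rcases List.mem_cons.mp hk with rfl | hk
      · exact hqq k hℓ (hnd L hL) (hnd M hM)
      · exact hAB k hk
    · exact ⟨((MulEquiv.refl (LG A)).prodCongr eL).trans ((g1_swap _ _ _).trans ((e1.prodCongr e).trans
        ((g1_swap _ _ _).trans ((MulEquiv.refl (LG B)).prodCongr eM.symm))))⟩

private theorem g5_one (m : ℕ) : Nonempty (Cy m ≃* LG [m]) :=
  ⟨((g1_unit (Cy m)).trans MulEquiv.prodComm).trans
    (((MulEquiv.refl (Cy m)).prodCongr g1_nil.symm).trans (g1_cons m []).symm)⟩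

private theorem g5_pp {p : ℕ} (hp : p.Prime) (n : ℕ) (hn : 0 < n) : ∃ L : List ℕ, (∀ m ∈ L, 0 < m) ∧
    Nonempty ((ZMod (p ^ n))ˣ ≃* LG L) ∧ ∀ ℓ c : ℕ, 1 ≤ c → (L.map fun m => vec m ℓ c).sum = T (p ^ n) ℓ c := by
  by_cases hp2 : p = 2
  · subst hp2
    obtain rfl | ⟨k, rfl⟩ : n = 1 ∨ ∃ k, n = k + 2 := by
      rcases Nat.lt_or_ge n 2 with h | h
      · exact Or.inl (by omega)
      · exact Or.inr ⟨n - 2, by omega⟩
    · refine ⟨[], fun m hm => absurd hm List.not_mem_nil, ?_, ?_⟩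
      · have hsub : Subsingleton (ZMod (2 ^ 1))ˣ := by
          rw [pow_one]
          infer_instance
        have e3 : (ZMod (2 ^ 1))ˣ ≃* Unit :=
          { toFun := fun _ => (), invFun := fun _ => 1, left_inv := fun x => Subsingleton.elim _ _,
            right_inv := fun _ => rfl, map_mul' := fun _ _ => rfl }
        exact ⟨e3.trans g1_nil.symm⟩
      · intro ℓ c hc
        rw [T_prime_pow Nat.prime_two]
        unfold cmp
        rw [if_neg one_ne_zero, if_pos rfl, if_neg (by omega), if_neg (by omega)]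
        rfl
    · refine ⟨[2, 2 ^ k], ?_, ?_, ?_⟩
      · intro m hm
        rcases List.mem_cons.mp hm with rfl | hm
        · norm_num
        · rw [List.mem_singleton.mp hm]
          positivity
      · obtain ⟨e1⟩ := units_two_pow k
        have := ZMod.isCyclic_units_four
        obtain ⟨e2⟩ := cyc_iso (G := (ZMod 4)ˣ) (n := 2) (by
          rw [Nat.card_eq_fintype_card, ZMod.card_units_eq_totient]
          decide)
        obtain ⟨e3⟩ := g5_one (2 ^ k)
        exact ⟨e1.trans ((e2.prodCongr e3).trans (g1_cons 2 [2 ^ k]).symm)⟩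
      · intro ℓ c hc
        rw [T_prime_pow Nat.prime_two]
        unfold cmp
        rw [if_neg (by omega), if_pos rfl, List.map_cons, List.map_cons, List.map_nil, List.sum_cons, List.sum_cons,
          List.sum_nil, add_zero]
        unfold vec
        rw [Nat.prime_two.factorization_pow]
        have h2 : (2 : ℕ).factorization = Finsupp.single 2 1 := Nat.prime_two.factorization
        rw [h2]
        congr 1
        · by_cases hℓ : ℓ = 2
          · subst hℓ
            rw [Finsupp.single_eq_same]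
            refine if_congr ⟨fun h => ⟨rfl, h.symm, by omega⟩, fun h => h.2.1.symm⟩ rfl rfl
          · rw [Finsupp.single_eq_of_ne hℓ, if_neg (by omega), if_neg (fun h => hℓ h.1)]
        · by_cases hℓ : ℓ = 2
          · subst hℓ
            rw [Finsupp.single_eq_same]
            refine if_congr ⟨fun h => ⟨rfl, by omega, by omega⟩, fun h => by omega⟩ rfl rfl
          · rw [Finsupp.single_eq_of_ne hℓ, if_neg (by omega), if_neg (fun h => hℓ h.1)]
  · obtain ⟨k, rfl⟩ : ∃ k, n = k + 1 := ⟨n - 1, by omega⟩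
    have hp1 : 0 < p - 1 := by
      have := hp.two_le
      omega
    refine ⟨[p ^ k * (p - 1)], ?_, ?_, ?_⟩
    · intro m hm
      rw [List.mem_singleton.mp hm]
      exact Nat.mul_pos (pow_pos hp.pos k) hp1
    · obtain ⟨e1⟩ := units_odd_pow hp hp2 k
      obtain ⟨e2⟩ := units_prime hp
      have hc : (p ^ k).Coprime (p - 1) := by
        apply Nat.Coprime.pow_left
        exact (Nat.coprime_self_sub_right hp.one_lt.le).2 (Nat.coprime_one_right p)
      obtain ⟨e3⟩ := cy_mul hc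
      obtain ⟨e4⟩ := g5_one (p ^ k * (p - 1))
      exact ⟨e1.trans ((e2.prodCongr (MulEquiv.refl _)).trans (MulEquiv.prodComm.trans (e3.symm.trans e4)))⟩
    · intro ℓ c hc
      rw [T_prime_pow hp]
      unfold cmp
      rw [if_neg (by omega), if_neg hp2, List.map_cons, List.map_nil, List.sum_cons, List.sum_nil, add_zero]
      rfl

-- MODULE s_g5
/-- the unit group as a product of cyclic groups -/
theorem units_list {s : ℕ} (hs : 0 < s) : ∃ L : List ℕ, (∀ m ∈ L, 0 < m) ∧ Nonempty ((ZMod s)ˣ ≃* LG L) ∧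
    ∀ ℓ c : ℕ, 1 ≤ c → (L.map fun m => vec m ℓ c).sum = T s ℓ c := by
  induction s using Nat.recOnPosPrimePosCoprime with
  | prime_pow p n hp hn => exact g5_pp hp n hn
  | zero => exact absurd hs (lt_irrefl 0)
  | one =>
    refine ⟨[], fun m hm => absurd hm List.not_mem_nil, ?_, ?_⟩
    · have e3 : (ZMod 1)ˣ ≃* Unit :=
        { toFun := fun _ => (), invFun := fun _ => 1, left_inv := fun x => Subsingleton.elim _ _,
          right_inv := fun _ => rfl, map_mul' := fun _ _ => rfl }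
      exact ⟨e3.trans g1_nil.symm⟩
    · intro ℓ c _
      rw [T_one]
      rfl
  | coprime a b ha hb hab iha ihb =>
    obtain ⟨La, h1, ⟨e1⟩, h2⟩ := iha (by omega)
    obtain ⟨Lb, h3, ⟨e3⟩, h4⟩ := ihb (by omega)
    obtain ⟨e5⟩ := units_mul hab
    obtain ⟨e6⟩ := LG_append La Lb
    refine ⟨La ++ Lb, ?_, ⟨e5.trans ((e1.prodCongr e3).trans e6.symm)⟩, ?_⟩
    · intro m hm
      rcases List.mem_append.mp hm with hm | hm
      · exact h1 m hm
      · exact h3 m hm
    · intro ℓ c hc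
      rw [List.map_append, List.sum_append, h2 ℓ c hc, h4 ℓ c hc, T_mul hab]

-- MODULE s_g6
/-- equal types -/
theorem iso_of_type (S : Finset ℕ) (hS : ∀ ℓ ∈ S, ℓ.Prime) {a b α β : ℕ} (ha : 0 < a) (hb : 0 < b) (hα : 0 < α)
    (hβ : 0 < β) (h : ∀ ℓ ∈ S, ∀ c, 1 ≤ c → T a ℓ c + vec α ℓ c = T b ℓ c + vec β ℓ c) :
    ∃ A B : List ℕ, (∀ m ∈ A, 0 < m) ∧ (∀ m ∈ B, 0 < m) ∧ (∀ ℓ ∈ S, ¬ ℓ ∣ A.prod ∧ ¬ ℓ ∣ B.prod) ∧
      Nonempty (LG A × ((ZMod a)ˣ × Cy α) ≃* LG B × ((ZMod b)ˣ × Cy β)) := by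
  obtain ⟨La, h1, ⟨e1⟩, h2⟩ := units_list ha
  obtain ⟨Lb, h3, ⟨e3⟩, h4⟩ := units_list hb
  have hpos : ∀ (m : ℕ) (L : List ℕ), 0 < m → (∀ k ∈ L, 0 < k) → ∀ k ∈ m :: L, 0 < k := by
    intro m L hm hL k hk
    rcases List.mem_cons.mp hk with rfl | hk
    · exact hm
    · exact hL k hk
  obtain ⟨A, B, hA, hB, hAB, -, ⟨e⟩⟩ := compare S.toList (fun ℓ hℓ => hS ℓ (Finset.mem_toList.mp hℓ)) (α :: La)
    (β :: Lb) (hpos α La hα h1) (hpos β Lb hβ h3) (fun ℓ hℓ c hc => by
      rw [List.map_cons, List.sum_cons, List.map_cons, List.sum_cons, h2 ℓ c hc, h4 ℓ c hc]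
      have := h ℓ (Finset.mem_toList.mp hℓ) c hc
      omega)
  refine ⟨A, B, hA, hB, ?_, ?_⟩
  · intro ℓ hℓ
    have hp := (hS ℓ hℓ).prime
    obtain ⟨h5, h6⟩ := hAB ℓ (Finset.mem_toList.mpr hℓ)
    constructor
    · intro hd
      obtain ⟨m, hm, hdm⟩ := hp.dvd_prod_iff.mp hd
      exact h5 m hm hdm
    · intro hd
      obtain ⟨m, hm, hdm⟩ := hp.dvd_prod_iff.mp hd
      exact h6 m hm hdm
  · have ea : (ZMod a)ˣ × Cy α ≃* LG (α :: La) :=
      (e1.prodCongr (MulEquiv.refl _)).trans (MulEquiv.prodComm.trans (g1_cons α La).symm)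
    have eb : (ZMod b)ˣ × Cy β ≃* LG (β :: Lb) :=
      (e3.prodCongr (MulEquiv.refl _)).trans (MulEquiv.prodComm.trans (g1_cons β Lb).symm)
    exact ⟨((MulEquiv.refl (LG A)).prodCongr ea).trans (e.trans ((MulEquiv.refl (LG B)).prodCongr eb.symm))⟩

end Pool.Agent.Sh
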