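import Pool.Agent.Sh.Step
import Pool.Agent.Sh.Grp
import Pool.Agent.UGrp.DhlM

/-! # Theorem S: the two applications of the Maynard-Tao theorem -/

set_option autoImplicit false

namespace Pool.Agent.Sh

open Finset Pool.Agent.UGrp Pool.Agent.SL

/-- a balanced set -/
structure Bal (S : Finset ℕ) (k : ℕ) (a : Fin k → ℕ) : Prop where
  pos : ∀ i, 0 < a i
  inj : Function.Injective a
  dvd : ∀ i j, a i < a j → (a j - a i) ∣ a i
  bal : ∀ i j, i ≠ j → ∀ ℓ ∈ S, ∀ c, 1 ≤ c → TD (a i) (a j) ℓ c + (if (a j).factorization ℓ + 1 = c then 1 else 0) =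
    TD (a j) (a i) ℓ c + (if (a i).factorization ℓ + 1 = c then 1 else 0)

/-- the data of stage 2: `A + y u = y u * Π u * P u(t)` with `A = A0 + M t` -/
structure Pre (S : Finset ℕ) (z K : ℕ) (y : ℕ → ℕ) (H : ℕ → Finset ℕ) (b E M A0 : ℕ) : Prop where
  b_pos : ∀ u < K, ∀ p : ℕ, p.Prime → p ≤ z → (y u).factorization p < b
  M_pos : 0 < M
  E_pos : 0 < E
  M_dvd : ∀ p : ℕ, p.Prime → p ≤ z → p ∣ M
  A_small : ∀ p : ℕ, p.Prime → p ≤ z → ∀ t : ℕ, (A0 + M * t).factorization p = b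
  A_dvd : ∀ u < K, ∀ t : ℕ, y u ∣ A0 + M * t
  A_big : ∀ u < K, ∀ p : ℕ, p.Prime → p ∣ y u → ∀ t : ℕ, (y u).factorization p < (A0 + M * t).factorization p
  H_val : ∀ u < K, ∀ p ∈ H u, ∀ t : ℕ, (A0 + M * t + y u).factorization p = E
  M_div : ∀ u < K, y u * ∏ p ∈ H u, p ^ E ∣ M
  E_one : ∀ ℓ ∈ S, ∀ p : ℕ, p.Prime → z < p → p ^ E ≡ 1 [MOD ℓ ^ (b + 1)]
  M_cop : ∀ u < K, ∀ p : ℕ, p.Prime → p ∣ M → ∀ t : ℕ, ¬ p ∣ (A0 + M * t + y u) / (y u * ∏ p ∈ H u, p ^ E)

-- MODULE s_f1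
private theorem s_f1_fac (P : Finset ℕ) (hP : ∀ p ∈ P, p.Prime) (e : ℕ → ℕ) (q : ℕ) :
    (∏ p ∈ P, p ^ e p).factorization q = if q ∈ P then e q else 0 := by
  rw [Nat.factorization_prod (fun p hp => pow_ne_zero _ (hP p hp).ne_zero), Finsupp.finsetSum_apply]
  have h1 : ∀ p ∈ P, ((p ^ e p).factorization q : ℕ) = if p = q then e q else 0 := by
    intro p hp
    rw [(hP p hp).factorization_pow, Finsupp.single_apply]
    split_ifs with h
    · rw [h]
    · rfl
  rw [Finset.sum_congr rfl h1, Finset.sum_ite_eq']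

/-- choice of `M`, `A0`: the same exponent `b` for all `p ≤ z` -/
theorem exists_pre {S : Finset ℕ} {z K : ℕ} {y : ℕ → ℕ} (hS : GoodS S z) (hy : ∀ u < K, 0 < y u)
    (hne : ∀ u < K, ∀ v < K, u ≠ v → y u ≠ y v)
    (hd : ∀ u < K, ∀ v < K, y u < y v → (y v - y u) ∣ y u) (H : ℕ → Finset ℕ) (b : ℕ)
    (hb : ∀ u < K, ∀ p : ℕ, p.Prime → p ≤ z → (y u).factorization p < b)
    (hH : ∀ u < K, ∀ p ∈ H u, p.Prime ∧ z < p ∧ ∀ v < K, ¬ p ∣ y v)
    (hdis : ∀ u < K, ∀ v < K, u ≠ v → Disjoint (H u) (H v)) : ∃ E M A0 : ℕ, Pre S z K y H b E M A0 := by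
  classical
  -- exponents
  set E : ℕ := ∏ ℓ ∈ S, (ℓ ^ (b + 1)).totient with hE
  have hEpos : 0 < E := Finset.prod_pos fun ℓ hℓ => Nat.totient_pos.2 (pow_pos (hS.prime ℓ hℓ).pos _)
  set B : ℕ := ∑ u ∈ range K, y u with hB
  have hBle : ∀ u < K, ∀ p, (y u).factorization p ≤ B := by
    intro u hu p
    have h1 : (y u).factorization p < y u := Nat.factorization_lt p (hy u hu).ne'
    have h2 : y u ≤ B := Finset.single_le_sum (f := y) (fun _ _ => Nat.zero_le _) (mem_range.2 hu)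
    omega
  set P0 : Finset ℕ := (range (z + 1)).filter Nat.Prime with hP0
  set P1 : Finset ℕ := ((range K).biUnion fun u => (y u).primeFactors).filter fun p => z < p with hP1
  set P2 : Finset ℕ := (range K).biUnion H with hP2
  have mem0 : ∀ p, p ∈ P0 ↔ p.Prime ∧ p ≤ z := by
    intro p; rw [hP0, mem_filter, mem_range]; constructor
    · rintro ⟨h1, h2⟩; exact ⟨h2, by omega⟩
    · rintro ⟨h1, h2⟩; exact ⟨by omega, h1⟩
  have mem1 : ∀ p, p ∈ P1 ↔ (∃ u < K, p.Prime ∧ p ∣ y u) ∧ z < p := by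
    intro p
    simp only [hP1, mem_filter, mem_biUnion, mem_range, Nat.mem_primeFactors]
    constructor
    · rintro ⟨⟨u, hu, h1, h2, h3⟩, h4⟩; exact ⟨⟨u, hu, h1, h2⟩, h4⟩
    · rintro ⟨⟨u, hu, h1, h2⟩, h4⟩; exact ⟨⟨u, hu, h1, h2, (hy u hu).ne'⟩, h4⟩
  have mem2 : ∀ p, p ∈ P2 ↔ ∃ u < K, p ∈ H u := by
    intro p; simp only [hP2, mem_biUnion, mem_range]
  set P : Finset ℕ := P0 ∪ P1 ∪ P2 with hPdef
  have hPp : ∀ p ∈ P, p.Prime := by
    intro p hp
    simp only [hPdef, mem_union] at hp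
    rcases hp with (hp | hp) | hp
    · exact ((mem0 p).1 hp).1
    · obtain ⟨⟨u, -, h, -⟩, -⟩ := (mem1 p).1 hp; exact h
    · obtain ⟨u, hu, h⟩ := (mem2 p).1 hp; exact (hH u hu p h).1
  -- exponents and residues
  have hres : ∀ p, p ∈ P2 → ∃ r : ℕ, ∃ u < K, p ∈ H u ∧ ∀ A : ℕ, A ≡ r [MOD p ^ (E + 1)] →
      (A + y u).factorization p = E := by
    intro p hp
    obtain ⟨u, hu, h⟩ := (mem2 p).1 hp
    obtain ⟨r, hr⟩ := insert_mod (hH u hu p h).1 hEpos ((hH u hu p h).2.2 u hu)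
    exact ⟨r, u, hu, h, hr⟩
  choose! ρ hρ using hres
  set e : ℕ → ℕ := fun p => if p ≤ z then b + 1 else if p ∈ P2 then E + 1 else B + 1 with he
  set r : ℕ → ℕ := fun p => if p ≤ z then p ^ b else if p ∈ P2 then ρ p else 0 with hr
  obtain ⟨A0, hA0pos, hA0⟩ := crt P hPp e r 0
  set M : ℕ := ∏ p ∈ P, p ^ e p with hM
  have hMpos : 0 < M := Finset.prod_pos fun p hp => pow_pos (hPp p hp).pos _
  have hA : ∀ t : ℕ, ∀ p ∈ P, A0 + M * t ≡ r p [MOD p ^ e p] := by
    intro t p hp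
    have h1 : p ^ e p ∣ M * t := Dvd.dvd.mul_right (Finset.dvd_prod_of_mem (fun p => p ^ e p) hp) t
    have h2 : M * t ≡ 0 [MOD p ^ e p] := (Nat.modEq_zero_iff_dvd).2 h1
    have h3 := (hA0 p hp).add h2
    rwa [add_zero] at h3
  have hApos : ∀ t : ℕ, 0 < A0 + M * t := fun t => by omega
  have hz2 : ∀ u < K, ∀ p ∈ H u, ¬ p ≤ z := fun u hu p hp => not_le.2 (hH u hu p hp).2.1
  have hnot2 : ∀ p, ∀ u < K, p ∣ y u → p ∉ P2 := by
    intro p u hu h1 h2
    obtain ⟨v, hv, h3⟩ := (mem2 p).1 h2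
    exact (hH v hv p h3).2.2 u hu h1
  -- valuations
  have v0 : ∀ p : ℕ, p.Prime → p ≤ z → ∀ t : ℕ, (A0 + M * t).factorization p = b := by
    intro p hp hpz t
    have h1 : p ∈ P := by
      simp only [hPdef, mem_union]; left; left; exact (mem0 p).2 ⟨hp, hpz⟩
    have h2 := hA t p h1
    simp only [he, hr, if_pos hpz] at h2
    exact val_of_mod hp (hApos t) (pow_pos hp.pos _) (by rw [hp.factorization_pow]; simp) h2
  have v1 : ∀ u < K, ∀ p : ℕ, p.Prime → p ∣ y u → z < p → ∀ t : ℕ, p ^ (B + 1) ∣ A0 + M * t := by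
    intro u hu p hp hpu hpz t
    have h1 : p ∈ P := by
      simp only [hPdef, mem_union]; left; right; exact (mem1 p).2 ⟨⟨u, hu, hp, hpu⟩, hpz⟩
    have h2 := hA t p h1
    simp only [he, hr, if_neg (not_le.2 hpz), if_neg (hnot2 p u hu hpu)] at h2
    exact (Nat.modEq_zero_iff_dvd).1 h2
  have hbig : ∀ u < K, ∀ p : ℕ, p.Prime → p ∣ y u → ∀ t : ℕ,
      (y u).factorization p < (A0 + M * t).factorization p := by
    intro u hu p hp hpu t
    rcases le_or_gt p z with hpz | hpz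
    · rw [v0 p hp hpz t]; exact hb u hu p hp hpz
    · have h1 := v1 u hu p hp hpu hpz t
      have h2 : B + 1 ≤ (A0 + M * t).factorization p :=
        (hp.pow_dvd_iff_le_factorization (hApos t).ne').1 h1
      have := hBle u hu p
      omega
  have hdvd : ∀ u < K, ∀ t : ℕ, y u ∣ A0 + M * t := by
    intro u hu t
    rw [← Nat.factorization_le_iff_dvd (hy u hu).ne' (hApos t).ne']
    intro p
    by_cases hp : p.Prime
    · by_cases hpu : p ∣ y u
      · exact (hbig u hu p hp hpu t).le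
      · rw [Nat.factorization_eq_zero_of_not_dvd hpu]; exact Nat.zero_le _
    · rw [Nat.factorization_eq_zero_of_not_prime _ hp]; exact Nat.zero_le _
  have hHv : ∀ u < K, ∀ p ∈ H u, ∀ t : ℕ, (A0 + M * t + y u).factorization p = E := by
    intro u hu p hp t
    have h2P : p ∈ P2 := (mem2 p).2 ⟨u, hu, hp⟩
    have h1 : p ∈ P := by simp only [hPdef, mem_union]; right; exact h2P
    have h2 := hA t p h1
    simp only [he, hr, if_neg (hz2 u hu p hp), if_pos h2P] at h2
    obtain ⟨v, hv, h3, h4⟩ := hρ p h2P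
    have huv : v = u := by
      by_contra hne'
      exact (Finset.disjoint_left.1 (hdis v hv u hu hne')) h3 hp
    rw [huv] at h4
    exact h4 _ h2
  have hPipos : ∀ u < K, 0 < ∏ p ∈ H u, p ^ E := fun u hu =>
    Finset.prod_pos fun p hp => pow_pos (hH u hu p hp).1.pos _
  have hPif : ∀ u < K, ∀ q, (∏ p ∈ H u, p ^ E).factorization q = if q ∈ H u then E else 0 :=
    fun u hu q => s_f1_fac (H u) (fun p hp => (hH u hu p hp).1) (fun _ => E) q
  have hDf : ∀ u < K, ∀ q, (y u * ∏ p ∈ H u, p ^ E).factorization q =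
      (y u).factorization q + if q ∈ H u then E else 0 := by
    intro u hu q
    rw [Nat.factorization_mul (hy u hu).ne' (hPipos u hu).ne', Finsupp.add_apply, hPif u hu q]
  -- the valuation of `A + y u` at the primes of `P`
  have hval : ∀ u < K, ∀ p ∈ P, ∀ t, (A0 + M * t + y u).factorization p =
      (y u * ∏ p ∈ H u, p ^ E).factorization p := by
    intro u hu p hp t
    rw [hDf u hu p]
    by_cases hpu : p ∈ H u
    · rw [if_pos hpu, hHv u hu p hpu t,
        Nat.factorization_eq_zero_of_not_dvd ((hH u hu p hpu).2.2 u hu), zero_add]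
    · rw [if_neg hpu, add_zero]
      have hpp := hPp p hp
      rcases le_or_gt p z with hpz | hpz
      · exact val_add hpp (hy u hu) (by rw [v0 p hpp hpz t]; exact hb u hu p hpp hpz)
      · simp only [hPdef, mem_union] at hp
        rcases hp with (hp | hp) | hp
        · exact absurd ((mem0 p).1 hp).2 (not_le.2 hpz)
        · obtain ⟨⟨v, hv, -, hpv⟩, -⟩ := (mem1 p).1 hp
          have h1 := v1 v hv p hpp hpv hpz t
          have h2 := hBle u hu p
          exact val_add' hpp (hy u hu) (by omega) h1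
        · obtain ⟨v, hv, hpv⟩ := (mem2 p).1 hp
          have huv : u ≠ v := fun h => hpu (by rw [h]; exact hpv)
          have h1 := hHv v hv p hpv t
          have h2 : p ∣ A0 + M * t + y v := by
            by_contra h3
            rw [Nat.factorization_eq_zero_of_not_dvd h3] at h1
            omega
          have h3 : ¬ p ∣ A0 + M * t + y u := by
            intro h3
            rcases lt_or_gt_of_ne (hne u hu v hv huv) with h4 | h4
            · exact (hH v hv p hpv).2.2 u hu (common_prime hpp h4 (hd u hu v hv h4) h3 h2).1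
            · exact (hH v hv p hpv).2.2 u hu (common_prime hpp h4 (hd v hv u hu h4) h2 h3).2
          rw [Nat.factorization_eq_zero_of_not_dvd h3,
            Nat.factorization_eq_zero_of_not_dvd ((hH v hv p hpv).2.2 u hu)]
  have hmemP : ∀ u < K, ∀ q, (y u * ∏ p ∈ H u, p ^ E).factorization q ≠ 0 → q ∈ P := by
    intro u hu q hq
    rw [hDf u hu q] at hq
    by_cases hqu : q ∈ H u
    · simp only [hPdef, mem_union]; right; exact (mem2 q).2 ⟨u, hu, hqu⟩
    · rw [if_neg hqu, add_zero] at hq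
      have hqp : q.Prime := by
        by_contra h; exact hq (Nat.factorization_eq_zero_of_not_prime _ h)
      have hqd : q ∣ y u := by
        by_contra h; exact hq (Nat.factorization_eq_zero_of_not_dvd h)
      simp only [hPdef, mem_union]
      left
      rcases le_or_gt q z with hqz | hqz
      · left; exact (mem0 q).2 ⟨hqp, hqz⟩
      · right; exact (mem1 q).2 ⟨⟨u, hu, hqp, hqd⟩, hqz⟩
  have hDpos : ∀ u < K, 0 < y u * ∏ p ∈ H u, p ^ E := fun u hu => Nat.mul_pos (hy u hu) (hPipos u hu)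
  refine ⟨E, M, A0, ⟨hb, hMpos, hEpos, ?_, v0, hdvd, hbig, hHv, ?_, ?_, ?_⟩⟩
  · intro p hp hpz
    have h1 : p ∈ P := by simp only [hPdef, mem_union]; left; left; exact (mem0 p).2 ⟨hp, hpz⟩
    refine dvd_trans ?_ (Finset.dvd_prod_of_mem (fun p => p ^ e p) h1)
    apply dvd_pow_self
    simp only [he, if_pos hpz]; omega
  · intro u hu
    rw [← Nat.factorization_le_iff_dvd (hDpos u hu).ne' hMpos.ne']
    intro q
    by_cases hq0 : (y u * ∏ p ∈ H u, p ^ E).factorization q = 0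
    · rw [hq0]; exact Nat.zero_le _
    · have hqP := hmemP u hu q hq0
      rw [hM, s_f1_fac P hPp e q, if_pos hqP, hDf u hu q]
      by_cases hqu : q ∈ H u
      · have h2P : q ∈ P2 := (mem2 q).2 ⟨u, hu, hqu⟩
        simp only [he, if_neg (hz2 u hu q hqu), if_pos h2P, if_pos hqu,
          Nat.factorization_eq_zero_of_not_dvd ((hH u hu q hqu).2.2 u hu)]
        omega
      · rw [if_neg hqu, add_zero]
        have hqp := hPp q hqP
        rcases le_or_gt q z with hqz | hqz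
        · have := hb u hu q hqp hqz
          simp only [he, if_pos hqz]; omega
        · have h3 := hBle u hu q
          by_cases h2P : q ∈ P2
          · obtain ⟨v, hv, h4⟩ := (mem2 q).1 h2P
            rw [Nat.factorization_eq_zero_of_not_dvd ((hH v hv q h4).2.2 u hu)]
            exact Nat.zero_le _
          · simp only [he, if_neg (not_le.2 hqz), if_neg h2P]; omega
  · intro ℓ hℓ p hp hpz
    have hℓp := hS.prime ℓ hℓ
    have hcop : p.Coprime (ℓ ^ (b + 1)) := by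
      apply Nat.Coprime.pow_right
      rw [Nat.coprime_primes hp hℓp]
      have := hS.le ℓ hℓ
      omega
    obtain ⟨q, hq⟩ : (ℓ ^ (b + 1)).totient ∣ E :=
      Finset.dvd_prod_of_mem (fun ℓ => (ℓ ^ (b + 1)).totient) hℓ
    rw [hq, pow_mul]
    have h1 := (Nat.ModEq.pow_totient hcop).pow q
    rwa [one_pow] at h1
  · intro u hu p hp hpM t hcon
    have hpP : p ∈ P := by
      obtain ⟨q, hq, hpq⟩ := (Prime.dvd_finsetProd_iff hp.prime _).1 hpM
      have := (Nat.prime_dvd_prime_iff_eq hp (hPp q hq)).1 (hp.dvd_of_dvd_pow hpq)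
      rw [this]; exact hq
    have hdd : (y u * ∏ p ∈ H u, p ^ E) ∣ A0 + M * t + y u := by
      rw [← Nat.factorization_le_iff_dvd (hDpos u hu).ne' (by have := hApos t; omega)]
      intro q
      by_cases hq0 : (y u * ∏ p ∈ H u, p ^ E).factorization q = 0
      · rw [hq0]; exact Nat.zero_le _
      · rw [hval u hu q (hmemP u hu q hq0) t]
    have h1 : ((A0 + M * t + y u) / (y u * ∏ p ∈ H u, p ^ E)).factorization p = 0 := by
      rw [Nat.factorization_div hdd, Finsupp.tsub_apply, hval u hu p hpP t, Nat.sub_self]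
    have h2 : 0 < (A0 + M * t + y u) / (y u * ∏ p ∈ H u, p ^ E) :=
      Nat.div_pos (Nat.le_of_dvd (by have := hApos t; omega) hdd) (hDpos u hu)
    have h3 := (hp.dvd_iff_one_le_factorization h2.ne').1 hcon
    omega

-- MODULE s_f2
/-- `y u * Π u` divides `A + y u` -/
private theorem s_f2_dvd {S : Finset ℕ} {z K : ℕ} {y : ℕ → ℕ} {H : ℕ → Finset ℕ} {b E M A0 : ℕ}
    (hH : ∀ u < K, ∀ p ∈ H u, p.Prime ∧ z < p ∧ ∀ v < K, ¬ p ∣ y v)
    (h : Pre S z K y H b E M A0) {u : ℕ} (hu : u < K) (t : ℕ) :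
    (y u * ∏ p ∈ H u, p ^ E) ∣ A0 + M * t + y u := by
  have h1 : y u ∣ A0 + M * t + y u := (Nat.dvd_add_right (h.A_dvd u hu t)).2 dvd_rfl
  have h2 : ∏ p ∈ H u, p ^ E ∣ A0 + M * t + y u := by
    apply Finset.prod_dvd_of_isRelPrime
    · intro p hp q hq hpq
      exact Nat.coprime_iff_isRelPrime.1 (Nat.Coprime.pow _ _
        ((Nat.coprime_primes (hH u hu p hp).1 (hH u hu q hq).1).2 hpq))
    · intro p hp
      have h3 := h.H_val u hu p hp t
      have h4 := Nat.ordProj_dvd (A0 + M * t + y u) p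
      rw [h3] at h4
      exact h4
  refine Nat.Coprime.mul_dvd_of_dvd_of_dvd ?_ h1 h2
  apply Nat.Coprime.prod_right
  intro p hp
  exact Nat.Coprime.pow_right _ ((Nat.Prime.coprime_iff_not_dvd (hH u hu p hp).1).2
    ((hH u hu p hp).2.2 u hu)).symm

/-- pigeonhole: for a prime `p > k` some `n` avoids `k` invertible forms -/
private theorem s_f2_avoid {k : ℕ} (s h : Fin k → ℕ) {p : ℕ} (hp : p.Prime) (hk : k < p)
    (hs : ∀ i, ¬ p ∣ s i) : ∃ n : ℕ, ∀ i, ¬ p ∣ s i * n + h i := by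
  by_contra hcon
  push Not at hcon
  choose i hi using hcon
  obtain ⟨m, hm, n, hn, hmn, he⟩ := Finset.exists_ne_map_eq_of_card_lt_of_maps_to
    (s := range p) (t := (Finset.univ : Finset (Fin k))) (f := i) (by simpa using hk)
    (fun _ _ => Finset.mem_coe.2 (Finset.mem_univ _))
  rw [mem_range] at hm hn
  have key : ∀ m n : ℕ, m < n → n < p → i m = i n → False := by
    intro m n hmn hn he
    have h1 := hi m
    have h2 := hi n
    rw [← he] at h2
    have h3 : p ∣ s (i m) * (n - m) := by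
      have h4 := (Nat.dvd_sub h2 h1)
      have h5 : s (i m) * n + h (i m) - (s (i m) * m + h (i m)) = s (i m) * (n - m) := by
        rw [Nat.mul_sub]; omega
      rwa [h5] at h4
    rcases (hp.dvd_mul).1 h3 with h4 | h4
    · exact hs _ h4
    · have := Nat.le_of_dvd (by omega) h4
      omega
  rcases lt_or_gt_of_ne hmn with h1 | h1
  · exact key m n h1 hn he
  · exact key n m h1 hm he.symm

/-- the primes among the forms, `DHLM` -/
theorem primes_pre {S : Finset ℕ} {z K μ : ℕ} {y : ℕ → ℕ} (hS : GoodS S z) (hK : K ≤ z) (hD : DHLM K μ) (hy : ∀ u < K, 0 < y u)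
    (hne : ∀ u < K, ∀ v < K, u ≠ v → y u ≠ y v) {H : ℕ → Finset ℕ} {b E M A0 : ℕ}
    (hH : ∀ u < K, ∀ p ∈ H u, p.Prime ∧ z < p ∧ ∀ v < K, ¬ p ∣ y v) (h : Pre S z K y H b E M A0) (N : ℕ) :
    ∃ (t : ℕ) (U : Finset ℕ), μ < U.card ∧ U ⊆ range K ∧ ∀ u ∈ U,
      ((A0 + M * t + y u) / (y u * ∏ p ∈ H u, p ^ E)).Prime ∧ N < (A0 + M * t + y u) / (y u * ∏ p ∈ H u, p ^ E) := by
  classical
  have _ := hS
  set D : ℕ → ℕ := fun u => y u * ∏ p ∈ H u, p ^ E with hDdef
  have hDpos : ∀ u < K, 0 < D u := fun u hu => Nat.mul_pos (hy u hu)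
    (Finset.prod_pos fun p hp => pow_pos (hH u hu p hp).1.pos _)
  have hdd : ∀ u < K, ∀ t, D u ∣ A0 + M * t + y u := fun u hu t => s_f2_dvd hH h hu t
  have hDM : ∀ u < K, D u ∣ M := h.M_div
  set s : Fin K → ℕ := fun i => M / D i with hs
  set g : Fin K → ℕ := fun i => (A0 + y i) / D i with hg
  have e1 : ∀ i : Fin K, D i * s i = M := fun i => Nat.mul_div_cancel' (hDM i i.2)
  have e2 : ∀ i : Fin K, D i * g i = A0 + y i := fun i =>
    Nat.mul_div_cancel' (by simpa using hdd i i.2 0)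
  have hform : ∀ (i : Fin K) (t : ℕ), s i * t + g i = (A0 + M * t + y i) / D i := by
    intro i t
    symm
    apply Nat.div_eq_of_eq_mul_right (hDpos i i.2)
    calc A0 + M * t + y i = M * t + (A0 + y i) := by ring
      _ = D i * s i * t + D i * g i := by rw [e1, e2]
      _ = D i * (s i * t + g i) := by ring
  have hspos : ∀ i, 0 < s i := fun i =>
    Nat.div_pos (Nat.le_of_dvd h.M_pos (hDM i i.2)) (hDpos i i.2)
  have hnd : ∀ i j, i ≠ j → s i * g j ≠ s j * g i := by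
    intro i j hij he
    have h1 : M * (A0 + y j) = M * (A0 + y i) := by
      calc M * (A0 + y j) = (D i * s i) * (D j * g j) := by rw [e1, e2]
        _ = D i * D j * (s i * g j) := by ring
        _ = D i * D j * (s j * g i) := by rw [he]
        _ = (D j * s j) * (D i * g i) := by ring
        _ = M * (A0 + y i) := by rw [e1, e2]
    have h2 := Nat.eq_of_mul_eq_mul_left h.M_pos h1
    exact hne i i.2 j j.2 (fun h => hij (Fin.ext h)) (by omega)
  have hadm : ∀ p : ℕ, p.Prime → ∃ n : ℕ, ∀ i, ¬ p ∣ s i * n + g i := by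
    intro p hp
    by_cases hpM : p ∣ M
    · refine ⟨0, fun i => ?_⟩
      rw [hform]
      exact h.M_cop i i.2 p hp hpM 0
    · have hpz : z < p := by
        by_contra hcon
        exact hpM (h.M_dvd p hp (not_lt.1 hcon))
      apply s_f2_avoid s g hp (by omega)
      intro i hcon
      exact hpM (dvd_trans hcon ⟨D i, by rw [mul_comm, e1]⟩)
  obtain ⟨n, hn, hcard⟩ := hD s g hspos hnd hadm (N + 1)
  refine ⟨n, (Finset.univ.filter fun i : Fin K => (s i * n + g i).Prime).map Fin.valEmbedding,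
    ?_, ?_, ?_⟩
  · rw [card_map]
    convert hcard
  · intro u hu
    obtain ⟨i, -, rfl⟩ := mem_map.1 hu
    exact mem_range.2 i.2
  · intro u hu
    obtain ⟨i, hi, rfl⟩ := mem_map.1 hu
    rw [mem_filter] at hi
    have h3 := hform i n
    have h4 : N < s i * n + g i := by
      have := Nat.mul_le_mul (hspos i) hn
      omega
    rw [h3] at h4 hi
    exact ⟨hi.2, h4⟩

-- MODULE s_f3
/-- the type of the prime -/
theorem P_type {S : Finset ℕ} {z K : ℕ} {y : ℕ → ℕ} (hS : GoodS S z) (hy : ∀ u < K, 0 < y u) {H : ℕ → Finset ℕ} {b E M A0 : ℕ}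
    (hH : ∀ u < K, ∀ p ∈ H u, p.Prime ∧ z < p ∧ ∀ v < K, ¬ p ∣ y v)
    (h : Pre S z K y H b E M A0) {u t P : ℕ} (hu : u < K) (hP : P = (A0 + M * t + y u) / (y u * ∏ p ∈ H u, p ^ E)) (hPp : P.Prime)
    {ℓ : ℕ} (hℓ : ℓ ∈ S) : (P - 1).factorization ℓ = b - (y u).factorization ℓ := by
  have hy0 := hy u hu
  have hℓp := hS.prime ℓ hℓ
  have hℓz := hS.le ℓ hℓ
  have hdd := s_f2_dvd hH h hu t
  have heq : A0 + M * t + y u = y u * (∏ p ∈ H u, p ^ E) * P := by
    rw [hP]; exact (Nat.mul_div_cancel' hdd).symm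
  have hb := h.b_pos u hu ℓ hℓp hℓz
  have hA := h.A_small ℓ hℓp hℓz t
  have hone : ∏ p ∈ H u, p ^ E ≡ 1 [MOD ℓ ^ (b + 1)] := by
    refine Finset.prod_induction (fun p => p ^ E) (fun x => x ≡ 1 [MOD ℓ ^ (b + 1)]) ?_ ?_ ?_
    · intro a c ha hc
      simpa using ha.mul hc
    · exact Nat.ModEq.refl 1
    · intro p hp
      exact h.E_one ℓ hℓ p (hH u hu p hp).1 (hH u hu p hp).2.1
  set Q : ℕ := ∏ p ∈ H u, p ^ E with hQ
  have hA0 : A0 + M * t ≠ 0 := by
    intro h0; rw [h0, Nat.factorization_zero] at hA; simp at hA; omega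
  have hQP : A0 + M * t = y u * (Q * P - 1) := by
    rw [Nat.mul_sub, mul_one, ← mul_assoc, ← heq]; omega
  have hQP0 : Q * P - 1 ≠ 0 := by
    intro h0; rw [h0, mul_zero] at hQP; exact hA0 hQP
  have hf : (Q * P - 1).factorization ℓ = b - (y u).factorization ℓ := by
    rw [hQP, Nat.factorization_mul hy0.ne' hQP0, Finsupp.add_apply] at hA
    omega
  have hP2 := hPp.two_le
  refine val_of_mod hℓp (by omega) (Nat.pos_of_ne_zero hQP0) hf ?_
  apply Nat.ModEq.add_right_cancel' 1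
  have h1 : P - 1 + 1 = P := by omega
  have h2 : Q * P - 1 + 1 = Q * P := by omega
  rw [h1, h2]
  have h3 : Q ≡ 1 [MOD ℓ ^ (b - (y u).factorization ℓ + 1)] :=
    hone.of_dvd (pow_dvd_pow ℓ (by omega))
  have h4 := h3.mul_right P
  rw [one_mul] at h4
  exact h4.symm

-- MODULE s_f4
private theorem s_f4_not {K : ℕ} {y : ℕ → ℕ} (hne : ∀ u < K, ∀ v < K, u ≠ v → y u ≠ y v)
    (hd : ∀ u < K, ∀ v < K, y u < y v → (y v - y u) ∣ y u) {A u v p : ℕ} (hu : u < K) (hv : v < K)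
    (huv : u ≠ v) (hp : p.Prime) (h1 : p ∣ A + y u) (h2 : ¬ p ∣ y u) : ¬ p ∣ A + y v := by
  intro h3
  rcases lt_or_gt_of_ne (hne u hu v hv huv) with h4 | h4
  · exact h2 (common_prime hp h4 (hd u hu v hv h4) h1 h3).1
  · exact h2 (common_prime hp h4 (hd v hv u hu h4) h3 h1).2

/-- the types of the new set -/
theorem TD_final {S : Finset ℕ} {z K : ℕ} {y : ℕ → ℕ} (hS : GoodS S z) (hz : 2 ≤ z) (hy : ∀ u < K, 0 < y u)
    (hne : ∀ u < K, ∀ v < K, u ≠ v → y u ≠ y v)
    (hd : ∀ u < K, ∀ v < K, y u < y v → (y v - y u) ∣ y u) {H : ℕ → Finset ℕ} {b E M A0 : ℕ}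
    (hH : ∀ u < K, ∀ p ∈ H u, p.Prime ∧ z < p ∧ ∀ v < K, ¬ p ∣ y v)
    (hdis : ∀ u < K, ∀ v < K, u ≠ v → Disjoint (H u) (H v))
    (h : Pre S z K y H b E M A0) {u v t P : ℕ} (hu : u < K) (hv : v < K) (huv : u ≠ v)
    (hP : P = (A0 + M * t + y u) / (y u * ∏ p ∈ H u, p ^ E)) (hPp : P.Prime) (hPz : z < P)
    (hPy : ∀ v < K, ¬ P ∣ y v) {ℓ : ℕ} (hℓ : ℓ ∈ S) (c : ℕ) (hc : 1 ≤ c) :
    TD (A0 + M * t + y u) (A0 + M * t + y v) ℓ c = TD (y u) (y v) ℓ c + ∑ p ∈ H u, cmp p 1 ℓ c +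
      (if b - (y u).factorization ℓ = c then 1 else 0) := by
  classical
  have _ := hdis
  have _ := hc
  have hdd := s_f2_dvd hH h hu t
  have heq : A0 + M * t + y u = y u * (∏ p ∈ H u, p ^ E) * P := by
    rw [hP]; exact (Nat.mul_div_cancel' hdd).symm
  have hyu := hy u hu
  have hQpos : 0 < ∏ p ∈ H u, p ^ E := Finset.prod_pos fun p hp => pow_pos (hH u hu p hp).1.pos _
  have hE0 : E ≠ 0 := h.E_pos.ne'
  have hPu : P ∉ H u := by
    intro hmem
    have h1 : P ∣ M := by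
      refine dvd_trans ?_ (h.M_div u hu)
      refine Dvd.dvd.mul_left ?_ _
      exact dvd_trans (dvd_pow_self P hE0) (Finset.dvd_prod_of_mem (fun p => p ^ E) hmem)
    have h2 := h.M_cop u hu P hPp h1 t
    rw [← hP] at h2
    exact h2 dvd_rfl
  have hpf : (A0 + M * t + y u).primeFactors = (y u).primeFactors ∪ (H u ∪ {P}) := by
    ext q
    simp only [mem_union, mem_singleton, Nat.mem_primeFactors]
    constructor
    · rintro ⟨hq, hqd, -⟩
      rw [heq, hq.dvd_mul, hq.dvd_mul] at hqd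
      rcases hqd with (h1 | h1) | h1
      · left; exact ⟨hq, h1, hyu.ne'⟩
      · right; left
        obtain ⟨p, hp, hpq⟩ := (Prime.dvd_finsetProd_iff hq.prime _).1 h1
        have := (Nat.prime_dvd_prime_iff_eq hq (hH u hu p hp).1).1 (hq.dvd_of_dvd_pow hpq)
        rw [this]; exact hp
      · right; right; exact (Nat.prime_dvd_prime_iff_eq hq hPp).1 h1
    · rintro (⟨hq, h1, -⟩ | h1 | h1)
      · exact ⟨hq, by rw [heq, mul_assoc]; exact Dvd.dvd.mul_right h1 _, by omega⟩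
      · refine ⟨(hH u hu q h1).1, ?_, by omega⟩
        rw [heq]
        refine Dvd.dvd.mul_right (Dvd.dvd.mul_left ?_ _) _
        exact dvd_trans (dvd_pow_self q hE0) (Finset.dvd_prod_of_mem (fun p => p ^ E) h1)
      · rw [h1]; exact ⟨hPp, by rw [heq]; exact Dvd.intro_left _ rfl, by omega⟩
  have hd1 : Disjoint (y u).primeFactors (H u ∪ {P}) := by
    rw [Finset.disjoint_left]
    intro q hq hq2
    have hq1 := Nat.dvd_of_mem_primeFactors hq
    rcases mem_union.1 hq2 with h1 | h1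
    · exact (hH u hu q h1).2.2 u hu hq1
    · rw [mem_singleton.1 h1] at hq1; exact hPy u hu hq1
  have hd2 : Disjoint (H u) {P} := by
    rw [Finset.disjoint_singleton_right]; exact hPu
  have hP1 : (A0 + M * t + y u).factorization P = 1 := by
    rw [heq, Nat.factorization_mul (Nat.mul_pos hyu hQpos).ne' hPp.ne_zero,
      Nat.factorization_mul hyu.ne' hQpos.ne', Finsupp.add_apply, Finsupp.add_apply,
      Nat.factorization_eq_zero_of_not_dvd (hPy u hu), hPp.factorization_self]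
    have h1 : (∏ p ∈ H u, p ^ E).factorization P = 0 := by
      apply Nat.factorization_eq_zero_of_not_dvd
      intro h1
      obtain ⟨p, hp, hpq⟩ := (Prime.dvd_finsetProd_iff hPp.prime _).1 h1
      have := (Nat.prime_dvd_prime_iff_eq hPp (hH u hu p hp).1).1 (hPp.dvd_of_dvd_pow hpq)
      rw [this] at hPu; exact hPu hp
    rw [h1]
  have hPd : P ∣ A0 + M * t + y u := by rw [heq]; exact Dvd.intro_left _ rfl
  have hPv : (A0 + M * t + y v).factorization P = 0 :=
    Nat.factorization_eq_zero_of_not_dvd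
      (s_f4_not hne hd hu hv huv hPp hPd (hPy u hu))
  unfold TD
  rw [hpf, Finset.sum_union hd1, Finset.sum_union hd2, Finset.sum_singleton, hP1, hPv, Nat.sub_zero,
    cmp_one hPp (by omega), ← add_assoc]
  congr 1
  · congr 1
    · apply Finset.sum_congr rfl
      intro p hp
      have hpp := Nat.prime_of_mem_primeFactors hp
      have hpd := Nat.dvd_of_mem_primeFactors hp
      rw [val_add hpp hyu (h.A_big u hu p hpp hpd t)]
      by_cases hpv : p ∣ y v
      · rw [val_add hpp (hy v hv) (h.A_big v hv p hpp hpv t)]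
      · have h1 : p ∣ A0 + M * t := dvd_trans hpd (h.A_dvd u hu t)
        have h2 : ¬ p ∣ A0 + M * t + y v := fun h3 => hpv ((Nat.dvd_add_right h1).1 h3)
        rw [Nat.factorization_eq_zero_of_not_dvd hpv, Nat.factorization_eq_zero_of_not_dvd h2]
    · apply Finset.sum_congr rfl
      intro p hp
      have h1 := h.H_val u hu p hp t
      have h2 : p ∣ A0 + M * t + y u := by
        by_contra h3
        rw [Nat.factorization_eq_zero_of_not_dvd h3] at h1
        exact hE0 h1.symm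
      have h3 := s_f4_not hne hd hu hv huv (hH u hu p hp).1 h2 ((hH u hu p hp).2.2 u hu)
      rw [h1, Nat.factorization_eq_zero_of_not_dvd h3, Nat.sub_zero]
      exact cmp_big (hH u hu p hp).1 (hH u hu p hp).2.1 (hS.prime ℓ hℓ) (hS.le ℓ hℓ) h.E_pos c
  · unfold vec
    rw [P_type hS hy hH h hu hP hPp hℓ]

-- MODULE s_f5
/-- **Stage 2** -/
theorem exists_bal {S : Finset ℕ} {z K k : ℕ} (hS : GoodS S z) (hK : K ≤ z) (hK1 : 1 ≤ K) (hk : 1 ≤ k) (hD : DHLM K k) :
    ∃ a : Fin k → ℕ, Bal S k a := by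
  classical
  have _ := hk
  obtain ⟨y, g, hst⟩ := exists_state hS K hK1 hK
  have hz2 : 2 ≤ z := hS.le 2 hS.two
  set B : ℕ := ∑ u ∈ range K, y u with hB
  have hyB : ∀ u < K, y u ≤ B := fun u hu =>
    Finset.single_le_sum (f := y) (fun _ _ => Nat.zero_le _) (mem_range.2 hu)
  set b : ℕ := B + 1 with hb
  have hbl : ∀ u < K, ∀ p, (y u).factorization p < b := by
    intro u hu p
    have h1 : (y u).factorization p < y u := Nat.factorization_lt p (hst.pos u hu).ne'
    have := hyB u hu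
    omega
  set mx : ℕ → ℕ := fun u => ∏ ℓ ∈ S, ℓ ^ ((y u).factorization ℓ + 1) with hmx
  set mc : ℕ → ℕ := fun u => ∏ ℓ ∈ S, ℓ ^ (b - (y u).factorization ℓ) with hmc
  have hmxf : ∀ u, ∀ ℓ ∈ S, (mx u).factorization ℓ = (y u).factorization ℓ + 1 := by
    intro u ℓ hℓ
    have h1 := s_f1_fac S hS.prime (fun ℓ => (y u).factorization ℓ + 1) ℓ
    rw [if_pos hℓ] at h1
    exact h1
  have hmcf : ∀ u, ∀ ℓ ∈ S, (mc u).factorization ℓ = b - (y u).factorization ℓ := by
    intro u ℓ hℓ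
    have h1 := s_f1_fac S hS.prime (fun ℓ => b - (y u).factorization ℓ) ℓ
    rw [if_pos hℓ] at h1
    exact h1
  have hmx0 : ∀ u, 0 < mx u := fun u => Finset.prod_pos fun ℓ hℓ => pow_pos (hS.prime ℓ hℓ).pos _
  have hmc0 : ∀ u, 0 < mc u := fun u => Finset.prod_pos fun ℓ hℓ => pow_pos (hS.prime ℓ hℓ).pos _
  have hmx2 : ∀ u, 2 ∣ mx u := fun u => dvd_trans (dvd_pow_self 2 (by omega))
    (Finset.dvd_prod_of_mem (fun ℓ => ℓ ^ ((y u).factorization ℓ + 1)) hS.two)
  have hmc2 : ∀ u < K, 2 ∣ mc u := fun u hu => dvd_trans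
    (dvd_pow_self 2 (by have := hbl u hu 2; omega))
    (Finset.dvd_prod_of_mem (fun ℓ => ℓ ^ (b - (y u).factorization ℓ)) hS.two)
  set f : ℕ → ℕ → ℕ → ℕ := fun u ℓ c => (∑ v ∈ (range K).erase u, FF z K y g v ℓ c +
    vec (mx u) ℓ c) + ∑ v ∈ (range K).erase u, vec (mc v) ℓ c with hf
  have hfE : ∀ u < K, EvT (f u) := by
    intro u hu
    refine EvT_add (EvT_add (EvT_sum ((range K).erase u) (fun v => FF z K y g v)
      (fun v _ => EvT_FF z K y g v)) (EvT_vec (hmx0 u) (hmx2 u)))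
      (EvT_sum ((range K).erase u) (fun v => vec (mc v)) (fun v hv => EvT_vec (hmc0 v)
        (hmc2 v (mem_range.1 (mem_of_mem_erase hv)))))
  obtain ⟨H, hH1, hdis, hHT⟩ := realize hS K f hfE (z + B)
  have hH : ∀ u < K, ∀ p ∈ H u, p.Prime ∧ z < p ∧ ∀ v < K, ¬ p ∣ y v := by
    intro u hu p hp
    obtain ⟨h1, h2⟩ := hH1 u hu p hp
    refine ⟨h1, by omega, fun v hv h3 => ?_⟩
    have h4 := Nat.le_of_dvd (hst.pos v hv) h3
    have h5 := hyB v hv
    omega
  obtain ⟨E, M, A0, hpre⟩ := exists_pre hS hst.pos hst.ne hst.dvd H b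
    (fun u hu p _ _ => hbl u hu p) hH hdis
  obtain ⟨t, U, hUc, hUsub, hU⟩ := primes_pre hS hK hD hst.pos hst.ne hH hpre (z + B)
  obtain ⟨U', hU'sub, hU'c⟩ := Finset.exists_subset_card_eq hUc.le
  set e := U'.orderEmbOfFin hU'c with he
  have heU : ∀ i, e i ∈ U := fun i => hU'sub (U'.orderEmbOfFin_mem hU'c i)
  have heK : ∀ i, e i < K := fun i => mem_range.1 (hUsub (heU i))
  set A : ℕ := A0 + M * t with hA
  refine ⟨fun i => A + y (e i), ?_, ?_, ?_, ?_⟩
  · intro i
    have := hst.pos _ (heK i)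
    omega
  · intro i j hij
    have h1 : y (e i) = y (e j) := by
      have : A + y (e i) = A + y (e j) := hij
      omega
    by_contra hne
    exact hst.ne _ (heK i) _ (heK j) (fun h => hne (e.injective h)) h1
  · intro i j hij
    have h1 : y (e i) < y (e j) := by
      have : A + y (e i) < A + y (e j) := hij
      omega
    have h2 := hst.dvd _ (heK i) _ (heK j) h1
    exact dvd_add_diff h1 h2 (dvd_trans h2 (hpre.A_dvd _ (heK i) t))
  · intro i j hij ℓ hℓ c hc
    have huv : e i ≠ e j := fun h => hij (e.injective h)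
    have hℓp := hS.prime ℓ hℓ
    have hℓz := hS.le ℓ hℓ
    have hval : ∀ u < K, (A + y u).factorization ℓ = (y u).factorization ℓ := fun u hu =>
      val_add hℓp (hst.pos u hu) (by rw [hA, hpre.A_small ℓ hℓp hℓz t]; exact hbl u hu ℓ)
    have key : ∀ u v, u ∈ U → v < K → u ≠ v →
        TD (A + y u) (A + y v) ℓ c = TD (y u) (y v) ℓ c + ∑ p ∈ H u, cmp p 1 ℓ c +
        (if b - (y u).factorization ℓ = c then 1 else 0) := by
      intro u v huU hv huv
      have hu : u < K := mem_range.1 (hUsub huU)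
      obtain ⟨hPp, hPN⟩ := hU u huU
      exact TD_final hS hz2 hst.pos hst.ne hst.dvd hH hdis hpre hu hv huv rfl hPp
        (lt_of_le_of_lt (Nat.le_add_right z B) hPN)
        (fun w hw h3 => absurd (lt_of_lt_of_le hPN (Nat.le_of_dvd (hst.pos w hw) h3))
          (by have := hyB w hw; omega)) hℓ c hc
    have hsum : ∀ u < K, ∑ p ∈ H u, cmp p 1 ℓ c + FF z K y g u ℓ c +
        (if b - (y u).factorization ℓ = c then 1 else 0) =
        ∑ v ∈ range K, FF z K y g v ℓ c + (if (y u).factorization ℓ + 1 = c then 1 else 0) +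
        ∑ v ∈ range K, vec (mc v) ℓ c := by
      intro u hu
      have h1 := hHT u hu ℓ hℓ c hc
      have h2 := Finset.sum_erase_add (range K) (fun v => FF z K y g v ℓ c) (mem_range.2 hu)
      have h3 := Finset.sum_erase_add (range K) (fun v => vec (mc v) ℓ c) (mem_range.2 hu)
      have h4 : vec (mx u) ℓ c = if (y u).factorization ℓ + 1 = c then 1 else 0 := by
        unfold vec; rw [hmxf u ℓ hℓ]
      have h5 : vec (mc u) ℓ c = if b - (y u).factorization ℓ = c then 1 else 0 := by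
        unfold vec; rw [hmcf u ℓ hℓ]
      rw [h1, ← h5, ← h4]
      simp only [hf]
      omega
    have k1 := key _ _ (heU i) (heK j) huv
    have k2 := key _ _ (heU j) (heK i) huv.symm
    have k3 := hsum _ (heK i)
    have k4 := hsum _ (heK j)
    have k5 := hst.bal _ (heK i) _ (heK j) huv ℓ hℓ c hc
    have k6 := hval _ (heK i)
    have k7 := hval _ (heK j)
    show TD (A + y (e i)) (A + y (e j)) ℓ c + (if (A + y (e j)).factorization ℓ + 1 = c then 1 else 0) =
      TD (A + y (e j)) (A + y (e i)) ℓ c + (if (A + y (e i)).factorization ℓ + 1 = c then 1 else 0)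
    rw [k6, k7, k1, k2]
    omega

-- MODULE s_f6
/-- two primes for one pair, infinitely often -/
theorem stage3_num {S : Finset ℕ} {k : ℕ} (hD : DHL k) {a : Fin k → ℕ} (h : Bal S k a) : ∃ (i j : Fin k) (r0 : ℕ), a i < a j ∧
    (∀ p : ℕ, p.Prime → p ∣ a i * a j * (a i / (a j - a i)).totient * (a j / (a j - a i)).totient → p ∣ r0) ∧
    (∀ ℓ ∈ S, ℓ.Prime → r0.factorization ℓ = 1) ∧ 0 < r0 ∧ ∀ x : ℕ, ∃ r' : ℕ, x < r' ∧ r'.Coprime r0 ∧
      (a i * (r0 * r') + 1).Prime ∧ (a j * (r0 * r') + 1).Prime := by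
  classical
  set Z : ℕ := k + ∑ i, a i + ∑ i, ∑ j, (a i / (a j - a i)).totient +
    ∑ i, ∑ j, (a j / (a j - a i)).totient + ∑ ℓ ∈ S, ℓ with hZ
  have hZa : ∀ i, a i ≤ Z := by
    intro i
    have := Finset.single_le_sum (f := a) (fun _ _ => Nat.zero_le _) (Finset.mem_univ i)
    omega
  have hZ1 : ∀ i j, (a i / (a j - a i)).totient ≤ Z := by
    intro i j
    have h1 := Finset.single_le_sum (f := fun i => ∑ j, (a i / (a j - a i)).totient)
      (fun _ _ => Nat.zero_le _) (Finset.mem_univ i)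
    have h2 := Finset.single_le_sum (f := fun j => (a i / (a j - a i)).totient)
      (fun _ _ => Nat.zero_le _) (Finset.mem_univ j)
    omega
  have hZ2 : ∀ i j, (a j / (a j - a i)).totient ≤ Z := by
    intro i j
    have h1 := Finset.single_le_sum (f := fun i => ∑ j, (a j / (a j - a i)).totient)
      (fun _ _ => Nat.zero_le _) (Finset.mem_univ i)
    have h2 := Finset.single_le_sum (f := fun j => (a j / (a j - a i)).totient)
      (fun _ _ => Nat.zero_le _) (Finset.mem_univ j)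
    omega
  have hZS : ∀ ℓ ∈ S, ℓ ≤ Z := by
    intro ℓ hℓ
    have := Finset.single_le_sum (f := fun ℓ : ℕ => ℓ) (fun _ _ => Nat.zero_le _) hℓ
    omega
  have hZk : k ≤ Z := by omega
  set P : Finset ℕ := (range (Z + 1)).filter Nat.Prime with hP
  have hPp : ∀ p ∈ P, p.Prime := fun p hp => (mem_filter.1 hp).2
  have hPm : ∀ p : ℕ, p.Prime → p ≤ Z → p ∈ P := fun p hp hpZ =>
    mem_filter.2 ⟨mem_range.2 (by omega), hp⟩
  set r0 : ℕ := ∏ p ∈ P, p ^ 1 with hr0
  have hr0pos : 0 < r0 := Finset.prod_pos fun p hp => pow_pos (hPp p hp).pos _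
  have hr0d : ∀ p : ℕ, p.Prime → p ≤ Z → p ∣ r0 := fun p hp hpZ =>
    dvd_trans (dvd_pow_self p one_ne_zero) (Finset.dvd_prod_of_mem (fun p => p ^ 1) (hPm p hp hpZ))
  have hr0n : ∀ p : ℕ, p.Prime → Z < p → ¬ p ∣ r0 := by
    intro p hp hpZ h1
    obtain ⟨q, hq, hpq⟩ := (Prime.dvd_finsetProd_iff hp.prime _).1 h1
    have := (Nat.prime_dvd_prime_iff_eq hp (hPp q hq)).1 (hp.dvd_of_dvd_pow hpq)
    have := mem_range.1 (mem_filter.1 hq).1
    omega
  -- the forms
  set s : Fin k → ℕ := fun i => a i * r0 * r0 with hs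
  set g : Fin k → ℕ := fun i => a i * r0 + 1 with hg
  have hspos : ∀ i, 0 < s i := fun i => Nat.mul_pos (Nat.mul_pos (h.pos i) hr0pos) hr0pos
  have hnd : ∀ i j, i ≠ j → s i * g j ≠ s j * g i := by
    intro i j hij he
    have h1 : (r0 * r0) * a i = (r0 * r0) * a j := by
      have h2 : a i * r0 * r0 * (a j * r0 + 1) = a j * r0 * r0 * (a i * r0 + 1) := he
      have h3 : a i * r0 * r0 * (a j * r0 + 1) = a i * a j * r0 * r0 * r0 + (r0 * r0) * a i := by ring
      have h4 : a j * r0 * r0 * (a i * r0 + 1) = a i * a j * r0 * r0 * r0 + (r0 * r0) * a j := by ring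
      omega
    exact hij (h.inj (Nat.eq_of_mul_eq_mul_left (Nat.mul_pos hr0pos hr0pos) h1))
  have hadm : ∀ p : ℕ, p.Prime → ∃ n : ℕ, ∀ i, ¬ p ∣ s i * n + g i := by
    intro p hp
    rcases le_or_gt p Z with hpZ | hpZ
    · refine ⟨0, fun i h1 => ?_⟩
      have h2 : p ∣ a i * r0 := Dvd.dvd.mul_left (hr0d p hp hpZ) _
      have h3 : p ∣ a i * r0 + 1 := by simpa [hs, hg] using h1
      have h4 := (Nat.dvd_add_right h2).1 h3
      exact hp.one_lt.ne' (Nat.dvd_one.1 h4)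
    · apply s_f2_avoid s g hp (by omega)
      intro i h1
      have h2 : p ∣ a i * r0 * r0 := h1
      rcases (hp.dvd_mul).1 h2 with h3 | h3
      · rcases (hp.dvd_mul).1 h3 with h4 | h4
        · have := Nat.le_of_dvd (h.pos i) h4
          have := hZa i
          omega
        · exact hr0n p hp hpZ h4
      · exact hr0n p hp hpZ h3
  have hpair : ∃ i j : Fin k, a i < a j ∧ ∀ x : ℕ, ∃ r' : ℕ, x < r' ∧ r'.Coprime r0 ∧
      (a i * (r0 * r') + 1).Prime ∧ (a j * (r0 * r') + 1).Prime := by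
    by_contra hcon
    push Not at hcon
    have hcon' : ∀ i j : Fin k, ∃ x : ℕ, a i < a j → ∀ r' : ℕ, x < r' → r'.Coprime r0 →
        (a i * (r0 * r') + 1).Prime → ¬ (a j * (r0 * r') + 1).Prime := by
      intro i j
      by_cases hij : a i < a j
      · obtain ⟨x, hx⟩ := hcon i j hij
        exact ⟨x, fun _ => hx⟩
      · exact ⟨0, fun h => absurd h hij⟩
    choose x hx using hcon'
    obtain ⟨n, hn, i, j, hij, h1, h2⟩ := hD s g hspos hnd hadm (∑ i, ∑ j, x i j)
    have hxn : ∀ i j, x i j ≤ n := by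
      intro i j
      have h3 := Finset.single_le_sum (f := fun i => ∑ j, x i j)
        (fun _ _ => Nat.zero_le _) (Finset.mem_univ i)
      have h4 := Finset.single_le_sum (f := fun j => x i j)
        (fun _ _ => Nat.zero_le _) (Finset.mem_univ j)
      omega
    have hlt : n < 1 + r0 * n := by
      have := Nat.le_mul_of_pos_left n hr0pos
      omega
    have hc : (1 + r0 * n).Coprime r0 := by simp
    have hf : ∀ i, s i * n + g i = a i * (r0 * (1 + r0 * n)) + 1 := by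
      intro i; simp only [hs, hg]; ring
    rw [hf] at h1 h2
    rcases lt_or_gt_of_ne (fun h3 => hij (h.inj h3)) with h3 | h3
    · exact hx i j h3 _ (lt_of_le_of_lt (hxn i j) hlt) hc h1 h2
    · exact hx j i h3 _ (lt_of_le_of_lt (hxn j i) hlt) hc h2 h1
  obtain ⟨i, j, hij, hx⟩ := hpair
  have hd := h.dvd i j hij
  have hdiv1 : 0 < a i / (a j - a i) :=
    Nat.div_pos (Nat.le_of_dvd (h.pos i) hd) (by omega)
  have hdiv2 : 0 < a j / (a j - a i) := by
    have h1 : (a j - a i) ∣ a j := (Nat.dvd_sub_iff_left hij.le hd).1 dvd_rfl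
    exact Nat.div_pos (Nat.le_of_dvd (h.pos j) h1) (by omega)
  refine ⟨i, j, r0, hij, ?_, ?_, hr0pos, hx⟩
  · intro p hp hpd
    apply hr0d p hp
    rcases (hp.dvd_mul).1 hpd with h1 | h1
    · rcases (hp.dvd_mul).1 h1 with h2 | h2
      · rcases (hp.dvd_mul).1 h2 with h3 | h3
        · exact (Nat.le_of_dvd (h.pos i) h3).trans (hZa i)
        · exact (Nat.le_of_dvd (h.pos j) h3).trans (hZa j)
      · exact (Nat.le_of_dvd (Nat.totient_pos.2 hdiv1) h2).trans (hZ1 i j)
    · exact (Nat.le_of_dvd (Nat.totient_pos.2 hdiv2) h1).trans (hZ2 i j)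
  · intro ℓ hℓ hℓp
    have h1 := s_f1_fac P hPp (fun _ => 1) ℓ
    rw [if_pos (hPm ℓ hℓp (hZS ℓ hℓ))] at h1
    exact h1

-- MODULE s_f7
/-- the unit groups of the two moduli -/
theorem stage3_iso {a b r0 r' q : ℕ} (hb : 0 < b) (hq : q.Prime) (hqe : q = a * (r0 * r') + 1) (hqb : b < q)
    (hc : r'.Coprime (a * r0)) : Nonempty ((ZMod (b * q))ˣ ≃* ((ZMod b)ˣ × Cy (a * r0)) × Cy r') := by
  have hbq : b.Coprime q := (Nat.coprime_of_lt_prime hb.ne' hqb hq).symm
  obtain ⟨e1⟩ := units_mul hbq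
  obtain ⟨e2⟩ := units_prime hq
  have hq1 : q - 1 = (a * r0) * r' := by
    rw [hqe, Nat.add_sub_cancel]; ring
  rw [hq1] at e2
  obtain ⟨e3⟩ := cy_mul hc.symm
  exact ⟨e1.trans (((MulEquiv.refl _).prodCongr (e2.trans e3)).trans MulEquiv.prodAssoc.symm)⟩

-- MODULE s_f8
/-- **THEOREM S** from the two sieve inputs -/
theorem shift_one (hBV : ∀ m : ℕ, 1 ≤ m → ∃ k : ℕ, DHLM k m) (S : Finset ℕ) (hS : ∀ ℓ ∈ S, ℓ.Prime) :
    ∃ (A B : Type) (_ : CommGroup A) (_ : CommGroup B), Finite A ∧ Finite B ∧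
      (∀ ℓ ∈ S, ¬ ℓ ∣ Nat.card A ∧ ¬ ℓ ∣ Nat.card B) ∧
      {n : ℕ | Nonempty (A × (ZMod n)ˣ ≃* B × (ZMod (n + 1))ˣ)}.Infinite := by
  classical
  set S' : Finset ℕ := insert 2 S with hS'
  have hS'p : ∀ ℓ ∈ S', ℓ.Prime := by
    intro ℓ hℓ
    rcases Finset.mem_insert.1 hℓ with h | h
    · rw [h]; exact Nat.prime_two
    · exact hS ℓ h
  obtain ⟨k, hk⟩ := hBV 1 le_rfl
  -- `k ≥ 1`, and `DHL k`
  have hpos : ∀ {k μ : ℕ}, 1 ≤ μ → DHLM k μ → 1 ≤ k := by
    intro k μ hμ hD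
    by_contra hcon
    have hk0 : k = 0 := by omega
    subst hk0
    obtain ⟨n, -, h1⟩ := hD (fun _ => 1) (fun _ => 1) (fun i => i.elim0) (fun i => i.elim0)
      (fun p _ => ⟨0, fun i => i.elim0⟩) 0
    simp at h1
  have hk1 := hpos le_rfl hk
  have hDHL : DHL k := by
    intro s h hs hn ha x
    obtain ⟨n, hn, h1⟩ := hk s h hs hn ha x
    obtain ⟨i, hi, j, hj, hij⟩ := Finset.one_lt_card.1 h1
    exact ⟨n, hn, i, j, hij, (mem_filter.1 hi).2, (mem_filter.1 hj).2⟩
  obtain ⟨K, hK⟩ := hBV k hk1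
  have hK1 := hpos hk1 hK
  set z : ℕ := K + ∑ ℓ ∈ S', ℓ with hz
  have hGood : GoodS S' z := by
    refine ⟨hS'p, ?_, Finset.mem_insert_self _ _⟩
    intro ℓ hℓ
    have := Finset.single_le_sum (f := fun ℓ : ℕ => ℓ) (fun _ _ => Nat.zero_le _) hℓ
    omega
  obtain ⟨a, ha⟩ := exists_bal hGood (by omega) hK1 hk1 hK
  obtain ⟨i, j, r0, hij, hr0, hr0S, hr0pos, hx⟩ := stage3_num hDHL ha
  have hd := ha.dvd i j hij
  set d : ℕ := a j - a i with hddef
  have hd0 : 0 < d := by omega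
  obtain ⟨b1, hb1⟩ := hd
  have haj : a j = d * (b1 + 1) := by rw [mul_add, mul_one, ← hb1]; omega
  have hb1' : a i / d = b1 := by rw [hb1]; exact Nat.mul_div_cancel_left _ hd0
  have hb2' : a j / d = b1 + 1 := by rw [haj]; exact Nat.mul_div_cancel_left _ hd0
  have hi0 := ha.pos i
  have hj0 := ha.pos j
  have hb1pos : 0 < b1 := by
    rcases Nat.eq_zero_or_pos b1 with h | h
    · rw [h, mul_zero] at hb1; omega
    · exact h
  have hgcd : (a i).gcd (a j) = d := gcd_eq_diff hij ⟨b1, hb1⟩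
  -- types
  have htype : ∀ ℓ ∈ S', ∀ c, 1 ≤ c → T b1 ℓ c + vec (a j * r0) ℓ c =
      T (b1 + 1) ℓ c + vec (a i * r0) ℓ c := by
    intro ℓ hℓ c hc
    have h1 := ha.bal i j (fun h => by rw [h] at hij; exact lt_irrefl _ hij) ℓ hℓ c hc
    rw [TD_eq hi0 hj0, TD_eq hj0 hi0, hgcd, Nat.gcd_comm, hgcd, hb1', hb2'] at h1
    have h2 : ∀ w, 0 < w → (w * r0).factorization ℓ = w.factorization ℓ + 1 := by
      intro w hw
      rw [Nat.factorization_mul hw.ne' hr0pos.ne', Finsupp.add_apply,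
        hr0S ℓ hℓ (hS'p ℓ hℓ)]
    unfold vec
    rw [h2 _ hi0, h2 _ hj0]
    exact h1
  obtain ⟨LA, LB, hLA, hLB, hLS, ⟨eAB⟩⟩ := iso_of_type S' hS'p hb1pos (Nat.succ_pos b1)
    (Nat.mul_pos hj0 hr0pos) (Nat.mul_pos hi0 hr0pos) htype
  have hfin : ∀ L : List ℕ, (∀ m ∈ L, 0 < m) → Finite (LG L) := by
    intro L hL
    apply Nat.finite_of_card_ne_zero
    rw [LG_card]
    exact (List.prod_pos hL).ne'
  refine ⟨LG LA, LG LB, instLG LA, instLG LB, hfin LA hLA, hfin LB hLB, ?_, ?_⟩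
  · intro ℓ hℓ
    rw [LG_card, LG_card]
    exact hLS ℓ (Finset.mem_insert_of_mem hℓ)
  · apply Set.infinite_of_forall_exists_gt
    intro x
    obtain ⟨r', hr', hcop, hp1, hp2⟩ := hx x
    have hcop1 : ∀ w, w ∣ a i * a j → r'.Coprime (w * r0) := by
      intro w hw
      refine Nat.Coprime.mul_right ?_ hcop
      apply Nat.Coprime.symm
      apply Nat.coprime_of_dvd
      intro p hp h1 h2
      have h3 : p ∣ r0 := by
        apply hr0 p hp
        exact Dvd.dvd.mul_right (Dvd.dvd.mul_right (dvd_trans h1 hw) _) _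
      have h4 := Nat.dvd_gcd h2 h3
      rw [hcop] at h4
      exact hp.one_lt.ne' (Nat.dvd_one.1 h4)
    have hr'0 : 0 < r' := by omega
    have hrr : 0 < r0 * r' := Nat.mul_pos hr0pos hr'0
    have hlt1 : b1 < a j * (r0 * r') + 1 := by
      have h1 : b1 ≤ a i := by rw [hb1]; exact Nat.le_mul_of_pos_left _ hd0
      have h2 : a j ≤ a j * (r0 * r') := Nat.le_mul_of_pos_right _ hrr
      omega
    have hr2 : 2 ≤ r0 := by
      have h1 := hr0S 2 (Finset.mem_insert_self _ _) Nat.prime_two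
      by_contra h2
      have h3 : r0 = 1 := by omega
      rw [h3] at h1
      simp at h1
    have hlt2 : b1 + 1 < a i * (r0 * r') + 1 := by
      have h1 : b1 ≤ a i := by rw [hb1]; exact Nat.le_mul_of_pos_left _ hd0
      have h2 : 2 * 1 ≤ r0 * r' := Nat.mul_le_mul hr2 hr'0
      have h3 : a i * 2 ≤ a i * (r0 * r') := Nat.mul_le_mul_left _ h2
      omega
    set n : ℕ := b1 * (a j * (r0 * r') + 1) with hn
    have hn1 : n + 1 = (b1 + 1) * (a i * (r0 * r') + 1) := by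
      rw [hn, haj, hb1]; ring
    obtain ⟨e1⟩ := stage3_iso hb1pos hp2 rfl hlt1 (hcop1 (a j) (Dvd.intro_left _ rfl))
    obtain ⟨e2⟩ := stage3_iso (Nat.succ_pos b1) hp1 rfl hlt2 (hcop1 (a i) (Dvd.intro _ rfl))
    refine ⟨n, ?_, ?_⟩
    · show Nonempty (LG LA × (ZMod n)ˣ ≃* LG LB × (ZMod (n + 1))ˣ)
      rw [hn1]
      exact ⟨((MulEquiv.refl _).prodCongr e1).trans (MulEquiv.prodAssoc.symm.trans
        ((eAB.prodCongr (MulEquiv.refl _)).trans (MulEquiv.prodAssoc.trans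
          ((MulEquiv.refl _).prodCongr e2.symm))))⟩
    · have h1 : r' ≤ r0 * r' := Nat.le_mul_of_pos_left _ hr0pos
      have h2 : r0 * r' ≤ a j * (r0 * r') := Nat.le_mul_of_pos_left _ hj0
      have h3 : a j * (r0 * r') + 1 ≤ n := Nat.le_mul_of_pos_left _ hb1pos
      omega

end Pool.Agent.Sh
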