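import Pool.Agent.Sh.Ev
import Pool.Agent.Sh.Crt

/-! # Theorem S: the recursion -/

set_option autoImplicit false

namespace Pool.Agent.Sh

open Finset

/-- an admissible change of the sequence -/
structure Upd (z w : ℕ) (y y' : ℕ → ℕ) : Prop where
  pos : ∀ u < w, 0 < y u
  pos' : ∀ u < w, 0 < y' u
  small : ∀ u < w, ∀ p : ℕ, p.Prime → p ≤ z → (y' u).factorization p = (y u).factorization p
  dvd : ∀ u < w, ∀ p : ℕ, p.Prime → p ∣ y u → p ∣ y' u
  lev : ∀ p : ℕ, p.Prime → z < p → ∀ u < w, ∀ v < w, p ∣ y u →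
    ((y v).factorization p < (y u).factorization p ↔ (y' v).factorization p < (y' u).factorization p)
  new : ∀ u < w, ∀ p : ℕ, p.Prime → p ∣ y' u → ¬ p ∣ y u → z < p ∧ ∀ v < w, v ≠ u → ¬ p ∣ y' v

/-- the new primes of `y' u` -/
def NN (y y' : ℕ → ℕ) (u : ℕ) : Finset ℕ := (y' u).primeFactors.filter fun p => ¬ p ∣ y u

/-- all primes `> z` of the old elements -/
def QQ (z w : ℕ) (y : ℕ → ℕ) : Finset ℕ := ((range w).biUnion fun u => (y u).primeFactors).filter fun p => z < p

-- MODULE s_r1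
private theorem r1_split {z w : ℕ} {y y' : ℕ → ℕ} (h : Upd z w y y') {u : ℕ} (hu : u < w) :
    (y' u).primeFactors = (y u).primeFactors ∪ NN y y' u ∧ Disjoint (y u).primeFactors (NN y y' u) := by
  constructor
  · ext p
    rw [Finset.mem_union, NN, Finset.mem_filter, Nat.mem_primeFactors, Nat.mem_primeFactors]
    constructor
    · rintro ⟨hp, hd, h0⟩
      by_cases hpu : p ∣ y u
      · exact Or.inl ⟨hp, hpu, (h.pos u hu).ne'⟩
      · exact Or.inr ⟨⟨hp, hd, h0⟩, hpu⟩
    · rintro (⟨hp, hd, _⟩ | h1)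
      · exact ⟨hp, h.dvd u hu p hp hd, (h.pos' u hu).ne'⟩
      · exact h1.1
  · rw [Finset.disjoint_left]
    intro p hp hp'
    rw [NN, Finset.mem_filter] at hp'
    exact hp'.2 (Nat.dvd_of_mem_primeFactors hp)

theorem TD_upd {S : Finset ℕ} {z w : ℕ} {y y' : ℕ → ℕ} (hS : GoodS S z) (h : Upd z w y y') {u v : ℕ} (hu : u < w) (hv : v < w)
    (huv : u ≠ v) {ℓ : ℕ} (hℓ : ℓ ∈ S) (c : ℕ) :
    TD (y' u) (y' v) ℓ c = TD (y u) (y v) ℓ c + ∑ p ∈ NN y y' u, cmp p 1 ℓ c := by
  classical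
  have hs := r1_split h hu
  rw [TD, hs.1, Finset.sum_union hs.2, TD]
  congr 1
  · refine Finset.sum_congr rfl fun p hp => ?_
    have hpp := Nat.prime_of_mem_primeFactors hp
    have hpd := Nat.dvd_of_mem_primeFactors hp
    by_cases hpz : p ≤ z
    · rw [h.small u hu p hpp hpz, h.small v hv p hpp hpz]
    · have hl := h.lev p hpp (by omega) u hu v hv hpd
      by_cases h1 : (y v).factorization p < (y u).factorization p
      · have h2 := hl.1 h1
        exact (cmp_big hpp (by omega : z < p) (hS.prime ℓ hℓ) (hS.le ℓ hℓ) (by omega) c).trans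
          (cmp_big hpp (by omega : z < p) (hS.prime ℓ hℓ) (hS.le ℓ hℓ) (by omega) c).symm
      · have h2 : ¬ (y' v).factorization p < (y' u).factorization p := fun h3 => h1 (hl.2 h3)
        rw [Nat.sub_eq_zero_of_le (by omega), Nat.sub_eq_zero_of_le (by omega)]
  · refine Finset.sum_congr rfl fun p hp => ?_
    rw [NN, Finset.mem_filter] at hp
    have hpp := Nat.prime_of_mem_primeFactors hp.1
    have hpd := Nat.dvd_of_mem_primeFactors hp.1
    obtain ⟨hz, hn⟩ := h.new u hu p hpp hpd hp.2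
    rw [Nat.factorization_eq_zero_of_not_dvd (hn v hv huv.symm), Nat.sub_zero,
      cmp_big hpp hz (hS.prime ℓ hℓ) (hS.le ℓ hℓ)
        ((hpp.dvd_iff_one_le_factorization (h.pos' u hu).ne').1 hpd)]

-- MODULE s_r2
theorem Top_upd {z w : ℕ} {y y' : ℕ → ℕ} (h : Upd z w y y') {u : ℕ} (hu : u < w) :
    Top z w y' u = Top z w y u ∪ NN y y' u ∧ Disjoint (Top z w y u) (NN y y' u) := by
  classical
  have hs := r1_split h hu
  constructor
  · ext p
    rw [Finset.mem_union, Top, Top, Finset.mem_filter, Finset.mem_filter, hs.1, Finset.mem_union]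
    constructor
    · rintro ⟨h1 | h1, hz, hmax⟩
      · left
        refine ⟨h1, hz, fun v hv => ?_⟩
        by_contra h2
        have hpp := Nat.prime_of_mem_primeFactors h1
        have hpv : p ∣ y v := by
          by_contra h3
          rw [Nat.factorization_eq_zero_of_not_dvd h3] at h2
          omega
        have h3 := (h.lev p hpp hz v hv u hu hpv).1 (by omega)
        have := hmax v hv
        omega
      · exact Or.inr h1
    · rintro (⟨h1, hz, hmax⟩ | h1)
      · refine ⟨Or.inl h1, hz, fun v hv => ?_⟩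
        have hpp := Nat.prime_of_mem_primeFactors h1
        have hpd := Nat.dvd_of_mem_primeFactors h1
        by_contra h2
        by_cases hpv : p ∣ y v
        · have h3 := (h.lev p hpp hz v hv u hu hpv).2 (by omega)
          have := hmax v hv
          omega
        · have hpv' : p ∣ y' v := by
            by_contra h3
            rw [Nat.factorization_eq_zero_of_not_dvd h3] at h2
            omega
          have h4 := (h.new v hv p hpp hpv' hpv).2 u hu (fun h5 => by rw [h5] at hpd; exact hpv hpd)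
          exact h4 (h.dvd u hu p hpp hpd)
      · have h1' := h1
        rw [NN, Finset.mem_filter] at h1'
        have hpp := Nat.prime_of_mem_primeFactors h1'.1
        have hpd := Nat.dvd_of_mem_primeFactors h1'.1
        obtain ⟨hz, hn⟩ := h.new u hu p hpp hpd h1'.2
        refine ⟨Or.inr h1, hz, fun v hv => ?_⟩
        by_cases hvu : v = u
        · rw [hvu]
        · rw [Nat.factorization_eq_zero_of_not_dvd (hn v hv hvu)]; exact Nat.zero_le _
  · refine Finset.disjoint_of_subset_left (fun p hp => ?_) hs.2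
    rw [Top, Finset.mem_filter] at hp
    exact hp.1

-- MODULE s_r3
private theorem r3_common {w : ℕ} {y : ℕ → ℕ} {A p u v : ℕ}
    (hne : ∀ u < w, ∀ v < w, u ≠ v → y u ≠ y v)
    (hd : ∀ u < w, ∀ v < w, y u < y v → (y v - y u) ∣ y u) (hp : p.Prime) (hu : u < w) (hv : v < w) (huv : v ≠ u)
    (h1 : p ∣ A + y u) (h2 : p ∣ A + y v) : p ∣ y u := by
  rcases lt_or_gt_of_ne (hne u hu v hv huv.symm) with h | h
  · exact (common_prime hp h (hd u hu v hv h) h1 h2).1
  · exact (common_prime hp h (hd v hv u hu h) h2 h1).2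

/-- insertion: existence of `A` -/
theorem ins_num {z w : ℕ} (y : ℕ → ℕ) (hy : ∀ u < w, 0 < y u) (hne : ∀ u < w, ∀ v < w, u ≠ v → y u ≠ y v)
    (hd : ∀ u < w, ∀ v < w, y u < y v → (y v - y u) ∣ y u) (R : ℕ → Finset ℕ)
    (hR : ∀ u < w, ∀ p ∈ R u, p.Prime ∧ z < p ∧ ∀ v < w, ¬ p ∣ y v)
    (hdis : ∀ u < w, ∀ v < w, u ≠ v → Disjoint (R u) (R v)) : ∃ A : ℕ, 0 < A ∧ Upd z w y (fun u => A + y u) ∧
      (∀ u < w, ∀ p : ℕ, p.Prime → p ∣ y u → (A + y u).factorization p = (y u).factorization p) ∧ (∀ u < w, y u ∣ A) ∧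
      ∀ u < w, ∀ p ∈ R u, (A + y u).factorization p = 1 ∧ ∀ v < w, v ≠ u → ¬ p ∣ A + y v := by
  classical
  set E : ℕ → ℕ := fun p => (range w).sup fun u => (y u).factorization p with hE
  set P0 : Finset ℕ := (range (z + 1)).filter Nat.Prime ∪ QQ z w y with hP0
  set P : Finset ℕ := P0 ∪ (range w).biUnion R with hP
  set e : ℕ → ℕ := fun p => if p ∈ P0 then E p + 1 else 2 with he
  have hEle : ∀ p, ∀ u < w, (y u).factorization p ≤ E p := fun p u hu =>
    Finset.le_sup (f := fun u => (y u).factorization p) (Finset.mem_range.2 hu)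
  have hP0p : ∀ p ∈ P0, p.Prime := by
    intro p hp
    rcases Finset.mem_union.1 hp with hp | hp
    · exact (Finset.mem_filter.1 hp).2
    · rw [QQ, Finset.mem_filter, Finset.mem_biUnion] at hp
      obtain ⟨⟨u, _, hp⟩, _⟩ := hp
      exact Nat.prime_of_mem_primeFactors hp
  have hPp : ∀ p ∈ P, p.Prime := by
    intro p hp
    rcases Finset.mem_union.1 hp with hp | hp
    · exact hP0p p hp
    · obtain ⟨u, hu, hp⟩ := Finset.mem_biUnion.1 hp
      exact (hR u (Finset.mem_range.1 hu) p hp).1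
  have hRP0 : ∀ u < w, ∀ p ∈ R u, p ∉ P0 := by
    intro u hu p hp hp0
    rcases Finset.mem_union.1 hp0 with h | h
    · have := (Finset.mem_range.1 (Finset.mem_filter.1 h).1)
      have := (hR u hu p hp).2.1
      omega
    · rw [QQ, Finset.mem_filter, Finset.mem_biUnion] at h
      obtain ⟨⟨v, hv, h⟩, _⟩ := h
      exact (hR u hu p hp).2.2 v (Finset.mem_range.1 hv) (Nat.dvd_of_mem_primeFactors h)
  have key : ∀ p ∈ P, ∃ r : ℕ, ∀ A : ℕ, A ≡ r [MOD p ^ e p] →
      (p ∈ P0 → p ^ (E p + 1) ∣ A) ∧ (∀ u < w, p ∈ R u → (A + y u).factorization p = 1) := by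
    intro p hp
    have hpp := hPp p hp
    by_cases h0 : p ∈ P0
    · have hep : e p = E p + 1 := by rw [he]; simp only [if_pos h0]
      refine ⟨0, fun A hA => ⟨fun _ => ?_, fun u hu hpu => absurd h0 (hRP0 u hu p hpu)⟩⟩
      rw [hep] at hA
      exact (Nat.modEq_zero_iff_dvd).1 hA
    · have hep : e p = 2 := by rw [he]; simp only [if_neg h0]
      rcases Finset.mem_union.1 hp with hp | hp
      · exact absurd hp h0
      · obtain ⟨u, hu, hpu⟩ := Finset.mem_biUnion.1 hp
        have hu := Finset.mem_range.1 hu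
        obtain ⟨r, hr⟩ := insert_mod (E := 1) hpp le_rfl ((hR u hu p hpu).2.2 u hu)
        refine ⟨r, fun A hA => ⟨fun h => absurd h h0, fun v hv hpv => ?_⟩⟩
        rw [hep] at hA
        have hvu : v = u := by
          by_contra hvu
          exact Finset.disjoint_left.1 (hdis v hv u hu hvu) hpv hpu
        rw [hvu]
        exact hr A hA
  choose! r hr using key
  obtain ⟨A, hA, hAm⟩ := crt P hPp e r 0
  have hk : ∀ p ∈ P, _ := fun p hp => hr p hp A (hAm p hp)
  have h0 : ∀ p ∈ P0, p ^ (E p + 1) ∣ A := fun p hp => (hk p (Finset.mem_union_left _ hp)).1 hp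
  have hRv : ∀ u < w, ∀ p ∈ R u, (A + y u).factorization p = 1 := fun u hu p hp =>
    (hk p (Finset.mem_union_right _ (Finset.mem_biUnion.2 ⟨u, Finset.mem_range.2 hu, hp⟩))).2 u hu hp
  have hsmall : ∀ p : ℕ, p.Prime → p ≤ z → p ∈ P0 := fun p hp hpz =>
    Finset.mem_union_left _ (Finset.mem_filter.2 ⟨Finset.mem_range.2 (by omega), hp⟩)
  have hmem : ∀ p : ℕ, p.Prime → ∀ u < w, p ∣ y u → p ∈ P0 := by
    intro p hp u hu hpu
    by_cases hpz : p ≤ z
    · exact hsmall p hp hpz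
    · have h9 : p ∈ QQ z w y := by
        rw [QQ, Finset.mem_filter, Finset.mem_biUnion]
        exact ⟨⟨u, Finset.mem_range.2 hu, Nat.mem_primeFactors.2 ⟨hp, hpu, (hy u hu).ne'⟩⟩, by omega⟩
      exact Finset.mem_union_right _ h9
  have hval : ∀ p ∈ P0, ∀ u < w, (A + y u).factorization p = (y u).factorization p := fun p hp u hu =>
    val_add' (hP0p p hp) (hy u hu) (Nat.lt_succ_of_le (hEle p u hu)) (h0 p hp)
  have hdvd : ∀ u < w, y u ∣ A := by
    intro u hu
    refine (Nat.factorization_prime_le_iff_dvd (hy u hu).ne' hA.ne').1 fun p hp => ?_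
    by_cases hpu : p ∣ y u
    · have h1 := (hp.pow_dvd_iff_le_factorization hA.ne').1 (h0 p (hmem p hp u hu hpu))
      have h2 := hEle p u hu
      omega
    · rw [Nat.factorization_eq_zero_of_not_dvd hpu]; exact Nat.zero_le _
  refine ⟨A, hA, ⟨hy, fun u hu => Nat.add_pos_left hA _, ?_, ?_, ?_, ?_⟩, ?_, hdvd, ?_⟩
  · intro u hu p hp hpz
    exact hval p (hsmall p hp hpz) u hu
  · intro u hu p hp hpu
    exact dvd_add (hpu.trans (hdvd u hu)) hpu
  · intro p hp hpz u hu v hv hpu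
    show _ ↔ (A + y v).factorization p < (A + y u).factorization p
    rw [hval p (hmem p hp u hu hpu) u hu, hval p (hmem p hp u hu hpu) v hv]
  · intro u hu p hp h1 h2
    constructor
    · by_contra hpz
      have h3 := hval p (hsmall p hp (by omega)) u hu
      rw [Nat.factorization_eq_zero_of_not_dvd h2] at h3
      have h4 := (hp.dvd_iff_one_le_factorization (Nat.add_pos_left hA (y u)).ne').1 h1
      omega
    · intro v hv hvu h3
      exact h2 (r3_common hne hd hp hu hv hvu h1 h3)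
  · intro u hu p hp hpu
    exact hval p (hmem p hp u hu hpu) u hu
  · intro u hu p hp
    refine ⟨hRv u hu p hp, fun v hv hvu h3 => ?_⟩
    have h1 : p ∣ A + y u := by
      by_contra h4
      have := hRv u hu p hp
      rw [Nat.factorization_eq_zero_of_not_dvd h4] at this
      omega
    exact (hR u hu p hp).2.2 u hu (r3_common hne hd (hR u hu p hp).1 hu hv hvu h1 h3)

-- MODULE s_r4
/-- **(a) insertion** -/
theorem insertion {S : Finset ℕ} {z w : ℕ} {y g : ℕ → ℕ} (hS : GoodS S z) (h : IsState S z w y g) (R : ℕ → Finset ℕ)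
    (hR : ∀ u < w, ∀ p ∈ R u, p.Prime ∧ z < p ∧ ∀ v < w, ¬ p ∣ y v)
    (hdis : ∀ u < w, ∀ v < w, u ≠ v → Disjoint (R u) (R v)) : ∃ y' : ℕ → ℕ, IsState S z w y' g ∧
      (∀ u < w, ∀ p : ℕ, p.Prime → p ≤ z → (y' u).factorization p = (y u).factorization p) ∧
      ∀ u < w, ∀ p ∈ R u, (y' u).factorization p = 1 ∧ ∀ v < w, v ≠ u → ¬ p ∣ y' v := by
  classical
  obtain ⟨A, hA, hU, _, hdvd, hRA⟩ := ins_num y h.pos h.ne h.dvd R hR hdis
  refine ⟨fun u => A + y u, ⟨hU.pos', h.gpos, ?_, ?_, ?_⟩, hU.small, hRA⟩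
  · intro u hu v hv huv
    have := h.ne u hu v hv huv
    show A + y u ≠ A + y v
    omega
  · intro u hu v hv huv
    have h1 : y u < y v := by
      have : A + y u < A + y v := huv
      omega
    have h2 := h.dvd u hu v hv h1
    exact dvd_add_diff h1 h2 (h2.trans (hdvd u hu))
  · intro u hu v hv huv ℓ hℓ c hc
    have h1 := TD_upd hS hU hu hv huv hℓ c
    have h2 := TD_upd hS hU hv hu huv.symm hℓ c
    have h3 := h.bal u hu v hv huv ℓ hℓ c hc
    rw [FF, FF] at h3
    rw [FF, FF, (Top_upd hU hu).1, (Top_upd hU hv).1, Finset.sum_union (Top_upd hU hu).2,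
      Finset.sum_union (Top_upd hU hv).2, h1, h2]
    omega

/-- the facts about the number `A` of the creation step -/
structure Cre (z w : ℕ) (y : ℕ → ℕ) (a : ℕ → ℕ) (R : ℕ → Finset ℕ) (A : ℕ) : Prop where
  pos : 0 < A
  upd : Upd z w y (fun u => A + y u)
  dvd : ∀ u < w, y u ∣ A
  small : ∀ p : ℕ, p.Prime → p ≤ z → A.factorization p = a p
  le : ∀ p : ℕ, p.Prime → ∀ u < w, (y u).factorization p ≤ A.factorization p
  top : ∀ p : ℕ, p.Prime → z < p → (∃ v < w, p ∣ y v) → ∃ v < w, (y v).factorization p = A.factorization p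
  keep : ∀ p : ℕ, p.Prime → z < p → (∃ v < w, p ∣ y v) → (∀ v < w, p ∉ R v) →
    ∀ u < w, (A + y u).factorization p = (y u).factorization p
  res : ∀ u < w, ∀ p ∈ R u, A.factorization p = 1 ∧ 2 ≤ (A + y u).factorization p ∧ ∀ v < w, v ≠ u → ¬ p ∣ A + y v
  newA : ∀ p : ℕ, p.Prime → p ∣ A → (∀ v < w, ¬ p ∣ y v) → ∀ u < w, ¬ p ∣ A + y u

-- MODULE s_r5
private theorem r5_common {w : ℕ} {y : ℕ → ℕ} {A p u v : ℕ}
    (hne : ∀ u < w, ∀ v < w, u ≠ v → y u ≠ y v)
    (hd : ∀ u < w, ∀ v < w, y u < y v → (y v - y u) ∣ y u) (hp : p.Prime) (hu : u < w) (hv : v < w) (huv : v ≠ u)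
    (h1 : p ∣ A + y u) (h2 : p ∣ A + y v) : p ∣ y u := by
  rcases lt_or_gt_of_ne (hne u hu v hv huv.symm) with h | h
  · exact (common_prime hp h (hd u hu v hv h) h1 h2).1
  · exact (common_prime hp h (hd v hv u hu h) h2 h1).2

/-- creation: existence of `A` -/
theorem cre_num {z w : ℕ} (hz : w + 1 ≤ z) (y : ℕ → ℕ) (hy : ∀ u < w, 0 < y u) (hw : 0 < w)
    (hne : ∀ u < w, ∀ v < w, u ≠ v → y u ≠ y v)
    (hd : ∀ u < w, ∀ v < w, y u < y v → (y v - y u) ∣ y u) (a : ℕ → ℕ)
    (ha : ∀ p : ℕ, p.Prime → p ≤ z → ∀ u < w, (y u).factorization p < a p) (R : ℕ → Finset ℕ)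
    (hR : ∀ u < w, ∀ p ∈ R u, p.Prime ∧ z < p ∧ (y u).factorization p = 1 ∧ ∀ v < w, v ≠ u → ¬ p ∣ y v) :
    ∃ A : ℕ, Cre z w y a R A := by
  classical
  set E : ℕ → ℕ := fun p => (range w).sup fun u => (y u).factorization p with hE
  set e : ℕ → ℕ := fun p => if p ≤ z then a p + 1 else if ∃ u < w, p ∈ R u then 2 else E p + 1 with he
  set P : Finset ℕ := (range (z + 1)).filter Nat.Prime ∪ QQ z w y with hP
  have hPp : ∀ p ∈ P, p.Prime := by
    intro p hp
    rw [hP, Finset.mem_union, Finset.mem_filter, QQ, Finset.mem_filter, Finset.mem_biUnion] at hp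
    rcases hp with hp | ⟨⟨u, _, hp⟩, _⟩
    · exact hp.2
    · exact Nat.prime_of_mem_primeFactors hp
  have hEle : ∀ p, ∀ u < w, (y u).factorization p ≤ E p := fun p u hu =>
    Finset.le_sup (f := fun u => (y u).factorization p) (Finset.mem_range.2 hu)
  have key : ∀ p ∈ P, ∃ r : ℕ, ∀ A : ℕ, 0 < A → A ≡ r [MOD p ^ e p] →
      (p ≤ z → A.factorization p = a p) ∧
      (∀ u < w, p ∈ R u → A.factorization p = 1 ∧ 2 ≤ (A + y u).factorization p) ∧
      (z < p → (∀ u < w, p ∉ R u) → A.factorization p = E p ∧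
        ∀ u < w, (A + y u).factorization p = (y u).factorization p) := by
    intro p hp
    have hpp := hPp p hp
    by_cases h1 : p ≤ z
    · refine ⟨p ^ a p, fun A hA hm => ⟨fun _ => ?_, fun u hu hpu => ?_, fun h => ?_⟩⟩
      · have h9 : e p = a p + 1 := by rw [he]; simp [h1]
        rw [h9] at hm
        exact val_of_mod hpp hA (pow_pos hpp.pos _) (by simp [hpp.factorization_pow]) hm
      · have := (hR u hu p hpu).2.1
        omega
      · omega
    · by_cases h2 : ∃ u < w, p ∈ R u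
      · obtain ⟨u, hu, hpu⟩ := h2
        obtain ⟨r, hr⟩ := raise hpp (hR u hu p hpu).2.2.1
        have hep : e p = 2 := by
          rw [he]
          simp only [h1, if_false]
          rw [if_pos ⟨u, hu, hpu⟩]
        refine ⟨r, fun A hA hm => ⟨fun h => absurd h h1, fun v hv hpv => ?_, fun _ h => absurd hpu (h u hu)⟩⟩
        rw [hep] at hm
        have hvu : v = u := by
          by_contra hvu
          have h3 := (hR u hu p hpu).2.2.2 v hv hvu
          have h4 := (hR v hv p hpv).2.2.1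
          apply h3
          by_contra h5
          rw [Nat.factorization_eq_zero_of_not_dvd h5] at h4
          omega
        rw [hvu]
        exact hr A hA hm
      · have hep : e p = E p + 1 := by
          rw [he]
          simp only [h1, if_false]
          rw [if_neg h2]
        obtain ⟨r, hr⟩ := digit (e := E p) hpp (by omega : w + 1 < p) y hy (hEle p)
        refine ⟨r, fun A hA hm => ⟨fun h => absurd h h1, fun v hv hpv => absurd ⟨v, hv, hpv⟩ h2, fun _ _ => ?_⟩⟩
        rw [hep] at hm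
        exact hr A hA hm
  choose! r hr using key
  obtain ⟨A, hA, hAm⟩ := crt P hPp e r 0
  have hk : ∀ p ∈ P, _ := fun p hp => hr p hp A hA (hAm p hp)
  have hPsmall : ∀ p : ℕ, p.Prime → p ≤ z → p ∈ P := fun p hp hpz => by
    rw [hP, Finset.mem_union, Finset.mem_filter, Finset.mem_range]
    exact Or.inl ⟨by omega, hp⟩
  have hPbig : ∀ p : ℕ, p.Prime → z < p → (∃ v < w, p ∣ y v) → p ∈ P := by
    rintro p hp hpz ⟨v, hv, hd⟩
    have h9 : p ∈ QQ z w y := by
      rw [QQ, Finset.mem_filter, Finset.mem_biUnion]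
      exact ⟨⟨v, Finset.mem_range.2 hv, Nat.mem_primeFactors.2 ⟨hp, hd, (hy v hv).ne'⟩⟩, hpz⟩
    exact Finset.mem_union_right _ h9
  have hRdvd : ∀ u < w, ∀ p ∈ R u, p ∣ y u := fun u hu p hp => by
    by_contra h5
    have h4 := (hR u hu p hp).2.2.1
    rw [Nat.factorization_eq_zero_of_not_dvd h5] at h4
    omega
  have hRmem : ∀ u < w, ∀ p ∈ R u, p ∈ P := fun u hu p hp =>
    hPbig p (hR u hu p hp).1 (hR u hu p hp).2.1 ⟨u, hu, hRdvd u hu p hp⟩
  have hsmall : ∀ p : ℕ, p.Prime → p ≤ z → A.factorization p = a p := fun p hp hpz =>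
    (hk p (hPsmall p hp hpz)).1 hpz
  have hres : ∀ u < w, ∀ p ∈ R u, A.factorization p = 1 ∧ 2 ≤ (A + y u).factorization p :=
    fun u hu p hp => (hk p (hRmem u hu p hp)).2.1 u hu hp
  have hkeep : ∀ p : ℕ, p.Prime → z < p → (∃ v < w, p ∣ y v) → (∀ v < w, p ∉ R v) →
      A.factorization p = E p ∧ ∀ u < w, (A + y u).factorization p = (y u).factorization p :=
    fun p hp hpz hv hnr => (hk p (hPbig p hp hpz hv)).2.2 hpz hnr
  have hle : ∀ p : ℕ, p.Prime → ∀ u < w, (y u).factorization p ≤ A.factorization p := by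
    intro p hp u hu
    by_cases hpu : p ∣ y u
    · by_cases hpz : p ≤ z
      · rw [hsmall p hp hpz]; exact (ha p hp hpz u hu).le
      · by_cases h2 : ∃ v < w, p ∈ R v
        · obtain ⟨v, hv, hpv⟩ := h2
          have hvu : u = v := by
            by_contra hvu
            exact (hR v hv p hpv).2.2.2 u hu hvu hpu
          rw [hvu, (hR v hv p hpv).2.2.1, (hres v hv p hpv).1]
        · rw [(hkeep p hp (by omega) ⟨u, hu, hpu⟩ (fun v hv h => h2 ⟨v, hv, h⟩)).1]
          exact hEle p u hu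
    · rw [Nat.factorization_eq_zero_of_not_dvd hpu]; exact Nat.zero_le _
  have hdvd : ∀ u < w, y u ∣ A := fun u hu =>
    (Nat.factorization_prime_le_iff_dvd (hy u hu).ne' hA.ne').1 fun p hp => hle p hp u hu
  refine ⟨A, ?_⟩
  refine ⟨hA, ?_, hdvd, hsmall, hle, ?_, fun p hp hpz hv hnr => (hkeep p hp hpz hv hnr).2, ?_, ?_⟩
  · refine ⟨hy, fun u hu => Nat.add_pos_left hA _, ?_, ?_, ?_, ?_⟩
    · intro u hu p hp hpz
      exact val_add hp (hy u hu) (by rw [hsmall p hp hpz]; exact ha p hp hpz u hu)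
    · intro u hu p hp hpu
      exact dvd_add (hpu.trans (hdvd u hu)) hpu
    · intro p hp hpz u hu v hv hpu
      by_cases h2 : ∃ v < w, p ∈ R v
      · obtain ⟨v', hv', hpv⟩ := h2
        have hvu : u = v' := by
          by_contra hvu
          exact (hR v' hv' p hpv).2.2.2 u hu hvu hpu
        subst hvu
        by_cases hvu : v = u
        · subst hvu; simp
        · have h3 := (hR u hu p hpv).2.2.2 v hv hvu
          have h4 : ¬ p ∣ A + y v := fun h5 => h3 ((Nat.dvd_add_right (hpu.trans (hdvd u hu))).1 h5)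
          have h6 := (hres u hu p hpv).2
          rw [Nat.factorization_eq_zero_of_not_dvd h3, Nat.factorization_eq_zero_of_not_dvd h4,
            (hR u hu p hpv).2.2.1]
          constructor
          · intro _; show 0 < (A + y u).factorization p; omega
          · intro _; norm_num
      · have h3 := (hkeep p hp hpz ⟨u, hu, hpu⟩ (fun v hv h => h2 ⟨v, hv, h⟩)).2
        rw [h3 u hu, h3 v hv]
    · intro u hu p hp h1 h2
      constructor
      · by_contra hpz
        have h3 : (A + y u).factorization p = (y u).factorization p :=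
          val_add hp (hy u hu) (by rw [hsmall p hp (by omega)]; exact ha p hp (by omega) u hu)
        rw [Nat.factorization_eq_zero_of_not_dvd h2] at h3
        have h4 := (hp.dvd_iff_one_le_factorization (Nat.add_pos_left hA (y u)).ne').1 h1
        omega
      · intro v hv hvu h3
        exact h2 (r5_common hne hd hp hu hv hvu h1 h3)
  · intro p hp hpz hv
    by_cases h2 : ∃ v < w, p ∈ R v
    · obtain ⟨v, hv, hpv⟩ := h2
      exact ⟨v, hv, by rw [(hR v hv p hpv).2.2.1, (hres v hv p hpv).1]⟩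
    · rw [(hkeep p hp hpz hv (fun v hv h => h2 ⟨v, hv, h⟩)).1]
      obtain ⟨v, hv', h⟩ := Finset.exists_mem_eq_sup (range w) ⟨0, Finset.mem_range.2 hw⟩ (fun u => (y u).factorization p)
      exact ⟨v, Finset.mem_range.1 hv', h.symm⟩
  · intro u hu p hp
    refine ⟨(hres u hu p hp).1, (hres u hu p hp).2, fun v hv hvu h3 => ?_⟩
    exact (hR u hu p hp).2.2.2 v hv hvu ((Nat.dvd_add_right ((hRdvd u hu p hp).trans (hdvd u hu))).1 h3)
  · intro p hp hpA hnv u hu h
    exact hnv u hu ((Nat.dvd_add_right hpA).1 h)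

-- MODULE s_r6
private theorem r6_Rdvd {z w : ℕ} {y : ℕ → ℕ} {R : ℕ → Finset ℕ}
    (hR : ∀ u < w, ∀ p ∈ R u, p.Prime ∧ z < p ∧ (y u).factorization p = 1 ∧ ∀ v < w, v ≠ u → ¬ p ∣ y v)
    {u p : ℕ} (hu : u < w) (hp : p ∈ R u) : p ∣ y u := by
  by_contra h5
  have h4 := (hR u hu p hp).2.2.1
  rw [Nat.factorization_eq_zero_of_not_dvd h5] at h4
  omega

/-- for `p ∣ y u` outside `R u` all valuations are kept -/
private theorem r6_keep {z w : ℕ} {y a : ℕ → ℕ} {R : ℕ → Finset ℕ} {A : ℕ}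
    (hR : ∀ u < w, ∀ p ∈ R u, p.Prime ∧ z < p ∧ (y u).factorization p = 1 ∧ ∀ v < w, v ≠ u → ¬ p ∣ y v)
    (h : Cre z w y a R A) {u p : ℕ} (hu : u < w) (hp : p.Prime) (hz : z < p) (hpu : p ∣ y u) (hpR : p ∉ R u) :
    ∀ v < w, (A + y v).factorization p = (y v).factorization p := by
  refine h.keep p hp hz ⟨u, hu, hpu⟩ fun v hv hpv => ?_
  by_cases hvu : u = v
  · subst hvu; exact hpR hpv
  · exact (hR v hv p hpv).2.2.2 u hu hvu hpu

/-- the type of the new element against the old ones -/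
theorem TD_new1 {S : Finset ℕ} {z w : ℕ} {y a : ℕ → ℕ} {R : ℕ → Finset ℕ} {A : ℕ} (hS : GoodS S z) (hy : ∀ u < w, 0 < y u)
    (ha : ∀ p : ℕ, p.Prime → p ≤ z → ∀ u < w, (y u).factorization p < a p)
    (hR : ∀ u < w, ∀ p ∈ R u, p.Prime ∧ z < p ∧ (y u).factorization p = 1 ∧ ∀ v < w, v ≠ u → ¬ p ∣ y v)
    (h : Cre z w y a R A) {u : ℕ} (hu : u < w) {ℓ : ℕ} (hℓ : ℓ ∈ S) (c : ℕ) :
    TD (A + y u) A ℓ c = ∑ p ∈ R u, cmp p 1 ℓ c + ∑ p ∈ NN y (fun u => A + y u) u, cmp p 1 ℓ c := by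
  classical
  have hA0 : 0 < A + y u := Nat.add_pos_left h.pos _
  have hdisj : Disjoint (R u) (NN y (fun u => A + y u) u) := by
    rw [Finset.disjoint_left]
    intro p hp hp'
    rw [NN, Finset.mem_filter] at hp'
    exact hp'.2 (r6_Rdvd hR hu hp)
  have hsub : R u ∪ NN y (fun u => A + y u) u ⊆ (A + y u).primeFactors := by
    intro p hp
    rcases Finset.mem_union.1 hp with hp | hp
    · have hpu := r6_Rdvd hR hu hp
      exact Nat.mem_primeFactors.2 ⟨(hR u hu p hp).1, dvd_add (hpu.trans (h.dvd u hu)) hpu, hA0.ne'⟩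
    · rw [NN, Finset.mem_filter] at hp
      exact hp.1
  rw [TD, ← Finset.sum_union hdisj]
  symm
  rw [← Finset.sum_subset hsub]
  · refine Finset.sum_congr rfl fun p hp => ?_
    rcases Finset.mem_union.1 hp with hp | hp
    · have h1 := h.res u hu p hp
      exact (cmp_big (hR u hu p hp).1 (hR u hu p hp).2.1 (hS.prime ℓ hℓ) (hS.le ℓ hℓ) (by omega) c).symm
    · rw [NN, Finset.mem_filter] at hp
      have hpp := Nat.prime_of_mem_primeFactors hp.1
      have hpd : p ∣ A + y u := Nat.dvd_of_mem_primeFactors hp.1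
      have h1 := (h.upd.new u hu p hpp hpd hp.2).1
      have h2 : ¬ p ∣ A := fun h3 => hp.2 ((Nat.dvd_add_right h3).1 hpd)
      have h4 := (hpp.dvd_iff_one_le_factorization hA0.ne').1 hpd
      rw [Nat.factorization_eq_zero_of_not_dvd h2, Nat.sub_zero]
      exact (cmp_big hpp h1 (hS.prime ℓ hℓ) (hS.le ℓ hℓ) h4 c).symm
  · intro p hp hpn
    have hpp := Nat.prime_of_mem_primeFactors hp
    have hpd : p ∣ A + y u := Nat.dvd_of_mem_primeFactors hp
    rw [Finset.mem_union, not_or] at hpn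
    have hpu : p ∣ y u := by
      by_contra h1
      apply hpn.2
      rw [NN, Finset.mem_filter]
      exact ⟨hp, h1⟩
    have key : (A + y u).factorization p ≤ A.factorization p := by
      by_cases hpz : p ≤ z
      · have h1 : (A + y u).factorization p = (y u).factorization p := h.upd.small u hu p hpp hpz
        rw [h1, h.small p hpp hpz]
        exact (ha p hpp hpz u hu).le
      · rw [r6_keep hR h hu hpp (by omega) hpu hpn.1 u hu]
        exact h.le p hpp u hu
    rw [Nat.sub_eq_zero_of_le key, cmp_zero]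


/-- the new primes of `A` -/
def NA (w : ℕ) (y : ℕ → ℕ) (A : ℕ) : Finset ℕ := A.primeFactors.filter fun p => ∀ v < w, ¬ p ∣ y v

/-- the small part -/
def sp (z : ℕ) (a y : ℕ → ℕ) (u : ℕ) : ℕ := ∏ p ∈ (range (z + 1)).filter Nat.Prime, p ^ (a p - (y u).factorization p)

-- MODULE s_r7
theorem TD_new2 {S : Finset ℕ} {z w : ℕ} {y a : ℕ → ℕ} {R : ℕ → Finset ℕ} {A : ℕ} (hS : GoodS S z) (hy : ∀ u < w, 0 < y u)
    (ha : ∀ p : ℕ, p.Prime → p ≤ z → ∀ u < w, (y u).factorization p < a p)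
    (hR : ∀ u < w, ∀ p ∈ R u, p.Prime ∧ z < p ∧ (y u).factorization p = 1 ∧ ∀ v < w, v ≠ u → ¬ p ∣ y v)
    (h : Cre z w y a R A) {u : ℕ} (hu : u < w) {ℓ : ℕ} (hℓ : ℓ ∈ S) (c : ℕ) :
    TD A (A + y u) ℓ c + ∑ p ∈ Top z w y u, cmp p 1 ℓ c =
      T (sp z a y u) ℓ c + ∑ p ∈ QQ z w y, cmp p 1 ℓ c + ∑ p ∈ (NA w y A).filter (fun p => z < p), cmp p 1 ℓ c := by
  classical
  have hA0 := h.pos
  set Sm : Finset ℕ := (range (z + 1)).filter Nat.Prime with hSm
  set N' : Finset ℕ := (NA w y A).filter (fun p => z < p) with hN'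
  have hSmz : ∀ p ∈ Sm, p.Prime ∧ p ≤ z := by
    intro p hp
    rw [hSm, Finset.mem_filter, Finset.mem_range] at hp
    exact ⟨hp.2, by omega⟩
  have hQ : ∀ p, p ∈ QQ z w y ↔ (p.Prime ∧ z < p ∧ ∃ v < w, p ∣ y v) := by
    intro p
    rw [QQ, Finset.mem_filter, Finset.mem_biUnion]
    constructor
    · rintro ⟨⟨v, hv, hp⟩, hz⟩
      exact ⟨Nat.prime_of_mem_primeFactors hp, hz, v, Finset.mem_range.1 hv, Nat.dvd_of_mem_primeFactors hp⟩
    · rintro ⟨hp, hz, v, hv, hd⟩
      exact ⟨⟨v, Finset.mem_range.2 hv, Nat.mem_primeFactors.2 ⟨hp, hd, (hy v hv).ne'⟩⟩, hz⟩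
  have hN : ∀ p, p ∈ N' ↔ (p.Prime ∧ p ∣ A ∧ z < p ∧ ∀ v < w, ¬ p ∣ y v) := by
    intro p
    rw [hN', Finset.mem_filter, NA, Finset.mem_filter, Nat.mem_primeFactors]
    constructor
    · rintro ⟨⟨⟨h1, h2, _⟩, h3⟩, h4⟩
      exact ⟨h1, h2, h4, h3⟩
    · rintro ⟨h1, h2, h4, h3⟩
      exact ⟨⟨⟨h1, h2, hA0.ne'⟩, h3⟩, h4⟩
  have hpf : A.primeFactors = (Sm ∪ QQ z w y) ∪ N' := by
    ext p
    rw [Finset.mem_union, Finset.mem_union, hQ, hN, Nat.mem_primeFactors]
    constructor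
    · rintro ⟨hp, hd, _⟩
      by_cases hpz : p ≤ z
      · exact Or.inl (Or.inl (Finset.mem_filter.2 ⟨Finset.mem_range.2 (by omega), hp⟩))
      · by_cases h1 : ∃ v < w, p ∣ y v
        · exact Or.inl (Or.inr ⟨hp, by omega, h1⟩)
        · push Not at h1
          exact Or.inr ⟨hp, hd, by omega, h1⟩
    · rintro ((h1 | ⟨hp, _, v, hv, hd⟩) | ⟨hp, hd, _, _⟩)
      · have h2 := hSmz p h1
        refine ⟨h2.1, ?_, hA0.ne'⟩
        by_contra h3
        have h4 := h.small p h2.1 h2.2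
        have h5 := ha p h2.1 h2.2 u hu
        rw [Nat.factorization_eq_zero_of_not_dvd h3] at h4
        omega
      · exact ⟨hp, hd.trans (h.dvd v hv), hA0.ne'⟩
      · exact ⟨hp, hd, hA0.ne'⟩
  have hd1 : Disjoint Sm (QQ z w y) := by
    rw [Finset.disjoint_left]
    intro p hp hp'
    have h1 := (hSmz p hp).2
    have h2 := ((hQ p).1 hp').2.1
    omega
  have hd2 : Disjoint (Sm ∪ QQ z w y) N' := by
    rw [Finset.disjoint_left]
    intro p hp hp'
    have h3 := (hN p).1 hp'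
    rcases Finset.mem_union.1 hp with hp | hp
    · have h1 := (hSmz p hp).2
      omega
    · obtain ⟨_, _, v, hv, hd⟩ := (hQ p).1 hp
      exact h3.2.2.2 v hv hd
  have hTsub : Top z w y u ⊆ QQ z w y := by
    intro p hp
    rw [Top, Finset.mem_filter] at hp
    exact (hQ p).2 ⟨Nat.prime_of_mem_primeFactors hp.1, hp.2.1, u, hu, Nat.dvd_of_mem_primeFactors hp.1⟩
  have e1 : ∑ p ∈ Sm, cmp p (A.factorization p - (A + y u).factorization p) ℓ c = T (sp z a y u) ℓ c := by
    rw [sp, T_prod_pow _ (fun p hp => (Finset.mem_filter.1 hp).2)]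
    refine Finset.sum_congr rfl fun p hp => ?_
    have h1 := hSmz p hp
    have h2 : (A + y u).factorization p = (y u).factorization p := h.upd.small u hu p h1.1 h1.2
    rw [h.small p h1.1 h1.2, h2]
  have e2 : ∑ p ∈ QQ z w y, cmp p (A.factorization p - (A + y u).factorization p) ℓ c =
      ∑ p ∈ QQ z w y \ Top z w y u, cmp p 1 ℓ c := by
    rw [← Finset.sum_sdiff hTsub]
    have h0 : ∑ p ∈ Top z w y u, cmp p (A.factorization p - (A + y u).factorization p) ℓ c = 0 := by
      refine Finset.sum_eq_zero fun p hp => ?_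
      have hpQ := (hQ p).1 (hTsub hp)
      rw [Top, Finset.mem_filter] at hp
      have hpu := Nat.dvd_of_mem_primeFactors hp.1
      obtain ⟨v, hv, hvA⟩ := h.top p hpQ.1 hpQ.2.1 hpQ.2.2
      have h3 : A.factorization p ≤ (A + y u).factorization p := by
        by_cases hpR : p ∈ R u
        · have h4 := h.res u hu p hpR
          omega
        · rw [r6_keep hR h hu hpQ.1 hpQ.2.1 hpu hpR u hu, ← hvA]
          exact hp.2.2 v hv
      rw [Nat.sub_eq_zero_of_le h3, cmp_zero]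
    rw [h0, add_zero]
    refine Finset.sum_congr rfl fun p hp => ?_
    rw [Finset.mem_sdiff] at hp
    have hpQ := (hQ p).1 hp.1
    obtain ⟨v0, hv0, hd0⟩ := hpQ.2.2
    have hpA : p ∣ A := hd0.trans (h.dvd v0 hv0)
    have h1A := (hpQ.1.dvd_iff_one_le_factorization hA0.ne').1 hpA
    have h3 : (y u).factorization p < A.factorization p := by
      by_cases hpu : p ∣ y u
      · by_contra h4
        apply hp.2
        rw [Top, Finset.mem_filter]
        refine ⟨Nat.mem_primeFactors.2 ⟨hpQ.1, hpu, (hy u hu).ne'⟩, hpQ.2.1, fun v hv => ?_⟩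
        have := h.le p hpQ.1 v hv
        omega
      · rw [Nat.factorization_eq_zero_of_not_dvd hpu]
        omega
    have h5 := val_add hpQ.1 (hy u hu) h3
    rw [h5]
    exact cmp_big hpQ.1 hpQ.2.1 (hS.prime ℓ hℓ) (hS.le ℓ hℓ) (by omega) c
  have e3 : ∑ p ∈ N', cmp p (A.factorization p - (A + y u).factorization p) ℓ c = ∑ p ∈ N', cmp p 1 ℓ c := by
    refine Finset.sum_congr rfl fun p hp => ?_
    have h1 := (hN p).1 hp
    have h2 := h.newA p h1.1 h1.2.1 h1.2.2.2 u hu
    rw [Nat.factorization_eq_zero_of_not_dvd h2, Nat.sub_zero]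
    exact cmp_big h1.1 h1.2.2.1 (hS.prime ℓ hℓ) (hS.le ℓ hℓ)
      ((h1.1.dvd_iff_one_le_factorization hA0.ne').1 h1.2.1) c
  have e4 := Finset.sum_sdiff hTsub (f := fun p => cmp p 1 ℓ c)
  rw [TD, hpf, Finset.sum_union hd2, Finset.sum_union hd1, e1, e2, e3]
  omega

-- MODULE s_r8
/-- the top primes of the new element -/
theorem Top_new {z w : ℕ} {y a : ℕ → ℕ} {R : ℕ → Finset ℕ} {A : ℕ} (hy : ∀ u < w, 0 < y u)
    (hR : ∀ u < w, ∀ p ∈ R u, p.Prime ∧ z < p ∧ (y u).factorization p = 1 ∧ ∀ v < w, v ≠ u → ¬ p ∣ y v)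
    (h : Cre z w y a R A) (ℓ c : ℕ) :
    ∑ p ∈ Top z (w + 1) (fun u => if u < w then A + y u else A) w, cmp p 1 ℓ c + ∑ v ∈ range w, ∑ p ∈ R v, cmp p 1 ℓ c =
      ∑ p ∈ QQ z w y, cmp p 1 ℓ c + ∑ p ∈ (NA w y A).filter (fun p => z < p), cmp p 1 ℓ c := by
  classical
  have hA0 := h.pos
  set N' : Finset ℕ := (NA w y A).filter (fun p => z < p) with hN'
  have hQ : ∀ p, p ∈ QQ z w y ↔ (p.Prime ∧ z < p ∧ ∃ v < w, p ∣ y v) := by
    intro p
    rw [QQ, Finset.mem_filter, Finset.mem_biUnion]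
    constructor
    · rintro ⟨⟨v, hv, hp⟩, hz⟩
      exact ⟨Nat.prime_of_mem_primeFactors hp, hz, v, Finset.mem_range.1 hv, Nat.dvd_of_mem_primeFactors hp⟩
    · rintro ⟨hp, hz, v, hv, hd⟩
      exact ⟨⟨v, Finset.mem_range.2 hv, Nat.mem_primeFactors.2 ⟨hp, hd, (hy v hv).ne'⟩⟩, hz⟩
  have hN : ∀ p, p ∈ N' ↔ (p.Prime ∧ p ∣ A ∧ z < p ∧ ∀ v < w, ¬ p ∣ y v) := by
    intro p
    rw [hN', Finset.mem_filter, NA, Finset.mem_filter, Nat.mem_primeFactors]
    constructor
    · rintro ⟨⟨⟨h1, h2, _⟩, h3⟩, h4⟩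
      exact ⟨h1, h2, h4, h3⟩
    · rintro ⟨h1, h2, h4, h3⟩
      exact ⟨⟨⟨h1, h2, hA0.ne'⟩, h3⟩, h4⟩
  have hB : Set.PairwiseDisjoint (↑(range w)) R := by
    intro u hu v hv huv
    show Disjoint (R u) (R v)
    rw [Finset.disjoint_left]
    intro p hp hp'
    have hu := Finset.mem_range.1 hu
    have hv := Finset.mem_range.1 hv
    exact (hR u hu p hp).2.2.2 v hv huv.symm (r6_Rdvd hR hv hp')
  set B : Finset ℕ := (range w).biUnion R with hBd
  have hBsub : B ⊆ QQ z w y := by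
    intro p hp
    obtain ⟨v, hv, hp⟩ := Finset.mem_biUnion.1 hp
    have hv := Finset.mem_range.1 hv
    exact (hQ p).2 ⟨(hR v hv p hp).1, (hR v hv p hp).2.1, v, hv, r6_Rdvd hR hv hp⟩
  have hdis : Disjoint (QQ z w y \ B) N' := by
    rw [Finset.disjoint_left]
    intro p hp hp'
    obtain ⟨_, _, v, hv, hd⟩ := (hQ p).1 (Finset.mem_sdiff.1 hp).1
    exact ((hN p).1 hp').2.2.2 v hv hd
  have hTop : Top z (w + 1) (fun u => if u < w then A + y u else A) w = (QQ z w y \ B) ∪ N' := by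
    ext p
    rw [Top, Finset.mem_filter, Finset.mem_union, Finset.mem_sdiff, hQ, hN]
    simp only [lt_irrefl, if_false]
    rw [Nat.mem_primeFactors]
    constructor
    · rintro ⟨⟨hp, hd, _⟩, hz, hmax⟩
      by_cases h1 : ∃ v < w, p ∣ y v
      · refine Or.inl ⟨⟨hp, hz, h1⟩, fun hpB => ?_⟩
        obtain ⟨v, hv, hpv⟩ := Finset.mem_biUnion.1 hpB
        have hv := Finset.mem_range.1 hv
        have h2 := hmax v (by omega)
        rw [if_pos hv] at h2
        have h3 := h.res v hv p hpv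
        omega
      · push Not at h1
        exact Or.inr ⟨hp, hd, hz, h1⟩
    · rintro (⟨⟨hp, hz, v0, hv0, hd0⟩, hnB⟩ | ⟨hp, hd, hz, hnv⟩)
      · refine ⟨⟨hp, hd0.trans (h.dvd v0 hv0), hA0.ne'⟩, hz, fun v hv => ?_⟩
        by_cases hvw : v < w
        · rw [if_pos hvw, h.keep p hp hz ⟨v0, hv0, hd0⟩ (fun v hv hpv => hnB (Finset.mem_biUnion.2
            ⟨v, Finset.mem_range.2 hv, hpv⟩)) v hvw]
          exact h.le p hp v hvw
        · rw [if_neg hvw]
      · refine ⟨⟨hp, hd, hA0.ne'⟩, hz, fun v hv => ?_⟩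
        by_cases hvw : v < w
        · rw [if_pos hvw, Nat.factorization_eq_zero_of_not_dvd (h.newA p hp hd hnv v hvw)]
          exact Nat.zero_le _
        · rw [if_neg hvw]
  have e4 := Finset.sum_sdiff hBsub (f := fun p => cmp p 1 ℓ c)
  rw [hTop, Finset.sum_union hdis, ← Finset.sum_biUnion hB, ← hBd]
  omega

/-- the top primes of the old elements -/
theorem Top_old {z w : ℕ} {y a : ℕ → ℕ} {R : ℕ → Finset ℕ} {A : ℕ} (hy : ∀ u < w, 0 < y u)
    (hR : ∀ u < w, ∀ p ∈ R u, p.Prime ∧ z < p ∧ (y u).factorization p = 1 ∧ ∀ v < w, v ≠ u → ¬ p ∣ y v)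
    (h : Cre z w y a R A) {u : ℕ} (hu : u < w) :
    Top z (w + 1) (fun u => if u < w then A + y u else A) u = Top z w (fun u => A + y u) u := by
  classical
  ext p
  rw [Top, Top, Finset.mem_filter, Finset.mem_filter]
  simp only [if_pos hu]
  constructor
  · rintro ⟨hp, hz, hmax⟩
    refine ⟨hp, hz, fun v hv => ?_⟩
    have := hmax v (by omega)
    rwa [if_pos hv] at this
  · rintro ⟨hp, hz, hmax⟩
    refine ⟨hp, hz, fun v hv => ?_⟩
    by_cases hvw : v < w
    · rw [if_pos hvw]; exact hmax v hvw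
    · rw [if_neg hvw]
      have hpp := Nat.prime_of_mem_primeFactors hp
      have hpd : p ∣ A + y u := Nat.dvd_of_mem_primeFactors hp
      by_cases hpu : p ∣ y u
      · by_cases hpR : p ∈ R u
        · have h3 := h.res u hu p hpR
          omega
        · have hk := r6_keep hR h hu hpp hz hpu hpR
          obtain ⟨v0, hv0, h0⟩ := h.top p hpp hz ⟨u, hu, hpu⟩
          have h1 := hmax v0 hv0
          rw [← h0, ← hk v0 hv0]
          exact h1
      · have h2 : ¬ p ∣ A := fun h3 => hpu ((Nat.dvd_add_right h3).1 hpd)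
        rw [Nat.factorization_eq_zero_of_not_dvd h2]
        exact Nat.zero_le _

-- MODULE s_r9
private theorem r9_disj {z w : ℕ} {y : ℕ → ℕ} {R : ℕ → Finset ℕ}
    (hR : ∀ u < w, ∀ p ∈ R u, p.Prime ∧ z < p ∧ (y u).factorization p = 1 ∧ ∀ v < w, v ≠ u → ¬ p ∣ y v)
    {u v : ℕ} (hu : u < w) (hv : v < w) (huv : u ≠ v) : Disjoint (R u) (R v) := by
  rw [Finset.disjoint_left]
  intro p hp hp'
  have h1 := (hR v hv p hp').2.2.1
  have h2 := (hR u hu p hp).2.2.2 v hv huv.symm
  rw [Nat.factorization_eq_zero_of_not_dvd h2] at h1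
  omega

private theorem r9_T {z w : ℕ} {y : ℕ → ℕ} {R : ℕ → Finset ℕ}
    (hR : ∀ u < w, ∀ p ∈ R u, p.Prime ∧ z < p ∧ (y u).factorization p = 1 ∧ ∀ v < w, v ≠ u → ¬ p ∣ y v)
    (ℓ c : ℕ) : T (∏ v ∈ range w, ∏ p ∈ R v, p) ℓ c = ∑ v ∈ range w, ∑ p ∈ R v, cmp p 1 ℓ c := by
  classical
  have hd : Set.PairwiseDisjoint (↑(range w)) R := by
    intro u hu v hv huv
    exact r9_disj hR (Finset.mem_range.1 hu) (Finset.mem_range.1 hv) huv
  rw [← Finset.prod_biUnion hd, ← Finset.sum_biUnion hd]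
  apply T_prod
  intro p hp
  obtain ⟨v, hv, hp⟩ := Finset.mem_biUnion.1 hp
  exact (hR v (Finset.mem_range.1 hv) p hp).1

/-- **(b) creation** -/
theorem creation {S : Finset ℕ} {z w : ℕ} {y g : ℕ → ℕ} (hS : GoodS S z) (h : IsState S z w y g) (hz : w + 1 ≤ z) (hw : 0 < w)
    (a : ℕ → ℕ) (ha : ∀ p : ℕ, p.Prime → p ≤ z → ∀ u < w, (y u).factorization p < a p) (R : ℕ → Finset ℕ)
    (hR : ∀ u < w, ∀ p ∈ R u, p.Prime ∧ z < p ∧ (y u).factorization p = 1 ∧ ∀ v < w, v ≠ u → ¬ p ∣ y v)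
    (hT : ∀ u < w, ∀ ℓ ∈ S, ∀ c, 1 ≤ c → ∑ p ∈ R u, cmp p 1 ℓ c = T (sp z a y u) ℓ c + T (g u) ℓ c) :
    ∃ y' g' : ℕ → ℕ, IsState S z (w + 1) y' g' := by
  classical
  obtain ⟨A, hA⟩ := cre_num hz y h.pos hw h.ne h.dvd a ha R hR
  set y'' : ℕ → ℕ := fun u => if u < w then A + y u else A with hy''
  set g'' : ℕ → ℕ := fun u => if u < w then g u else ∏ v ∈ range w, ∏ p ∈ R v, p with hg''
  have hyo : ∀ u < w, y'' u = A + y u := fun u hu => by rw [hy'']; simp [hu]
  have hyn : y'' w = A := by rw [hy'']; simp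
  have hgo : ∀ u < w, g'' u = g u := fun u hu => by rw [hg'']; simp [hu]
  have hgn : g'' w = ∏ v ∈ range w, ∏ p ∈ R v, p := by rw [hg'']; simp
  have hcase : ∀ u < w + 1, u < w ∨ u = w := fun u hu => by omega
  -- the potentials
  have hFo : ∀ u < w, ∀ ℓ c, FF z (w + 1) y'' g'' u ℓ c = T (g u) ℓ c + ∑ p ∈ Top z w y u, cmp p 1 ℓ c +
      ∑ p ∈ NN y (fun u => A + y u) u, cmp p 1 ℓ c := by
    intro u hu ℓ c
    rw [FF, hgo u hu, hy'', Top_old h.pos hR hA hu, (Top_upd hA.upd hu).1,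
      Finset.sum_union (Top_upd hA.upd hu).2, add_assoc]
  have hFn : ∀ ℓ c, FF z (w + 1) y'' g'' w ℓ c = ∑ p ∈ QQ z w y, cmp p 1 ℓ c +
      ∑ p ∈ (NA w y A).filter (fun p => z < p), cmp p 1 ℓ c := by
    intro ℓ c
    rw [FF, hgn, r9_T hR, add_comm, hy'']
    exact Top_new h.pos hR hA ℓ c
  -- new pairs
  have hnew : ∀ u < w, ∀ ℓ ∈ S, ∀ c, 1 ≤ c → TD (y'' u) (y'' w) ℓ c + FF z (w + 1) y'' g'' w ℓ c =
      TD (y'' w) (y'' u) ℓ c + FF z (w + 1) y'' g'' u ℓ c := by
    intro u hu ℓ hℓ c hc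
    have h1 := TD_new1 hS h.pos ha hR hA hu hℓ c
    have h2 := TD_new2 hS h.pos ha hR hA hu hℓ c
    have h3 := hT u hu ℓ hℓ c hc
    rw [hFo u hu, hFn, hyo u hu, hyn, h1]
    omega
  refine ⟨y'', g'', ⟨?_, ?_, ?_, ?_, ?_⟩⟩
  · intro u hu
    rcases hcase u hu with hu | rfl
    · rw [hyo u hu]; exact Nat.add_pos_left hA.pos _
    · rw [hyn]; exact hA.pos
  · intro u hu
    rcases hcase u hu with hu | rfl
    · rw [hgo u hu]; exact h.gpos u hu
    · rw [hgn]
      exact Finset.prod_pos fun v hv => Finset.prod_pos fun p hp => (hR v (Finset.mem_range.1 hv) p hp).1.pos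
  · intro u hu v hv huv
    rcases hcase u hu with hu | rfl
    · rcases hcase v hv with hv | rfl
      · rw [hyo u hu, hyo v hv]
        have := h.ne u hu v hv huv
        omega
      · rw [hyo u hu, hyn]
        have := h.pos u hu
        omega
    · rcases hcase v hv with hv | rfl
      · rw [hyo v hv, hyn]
        have := h.pos v hv
        omega
      · exact absurd rfl huv
  · intro u hu v hv huv
    rcases hcase u hu with hu | rfl
    · rcases hcase v hv with hv | rfl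
      · rw [hyo u hu, hyo v hv] at *
        have h1 : y u < y v := by omega
        have h2 := h.dvd u hu v hv h1
        exact dvd_add_diff h1 h2 (h2.trans (hA.dvd u hu))
      · rw [hyo u hu, hyn] at huv
        omega
    · rcases hcase v hv with hv | rfl
      · rw [hyo v hv, hyn]
        rw [Nat.add_sub_cancel_left]
        exact hA.dvd v hv
      · exact absurd huv (lt_irrefl _)
  · intro u hu v hv huv ℓ hℓ c hc
    rcases hcase u hu with hu | hu
    · rcases hcase v hv with hv | hv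
      · have h1 := TD_upd hS hA.upd hu hv huv hℓ c
        have h2 := TD_upd hS hA.upd hv hu huv.symm hℓ c
        have h3 := h.bal u hu v hv huv ℓ hℓ c hc
        rw [FF, FF] at h3
        rw [hFo u hu, hFo v hv, hyo u hu, hyo v hv]
        rw [h1, h2]
        omega
      · subst hv
        exact hnew u hu ℓ hℓ c hc
    · subst hu
      rcases hcase v hv with hv | hv
      · exact (hnew v hv ℓ hℓ c hc).symm
      · exact absurd hv.symm huv

-- MODULE s_r10
/-- states of every size -/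
theorem exists_state {S : Finset ℕ} {z : ℕ} (hS : GoodS S z) (w : ℕ) (hw : 1 ≤ w) (hz : w ≤ z) :
    ∃ y g : ℕ → ℕ, IsState S z w y g := by
  induction w, hw using Nat.le_induction with
  | base =>
    refine ⟨fun _ => 1, fun _ => 1, ⟨fun _ _ => one_pos, fun _ _ => one_pos, ?_, ?_, ?_⟩⟩
    · intro u hu v hv huv; omega
    · intro u hu v hv huv; exact absurd huv (lt_irrefl _)
    · intro u hu v hv huv; omega
  | succ w hw ih =>
    obtain ⟨y, g, h⟩ := ih (by omega)
    set a : ℕ → ℕ := fun p => 1 + ∑ u ∈ range w, (y u).factorization p with ha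
    have ha' : ∀ p : ℕ, p.Prime → p ≤ z → ∀ u < w, (y u).factorization p < a p := by
      intro p _ _ u hu
      have := Finset.single_le_sum (f := fun u => (y u).factorization p) (fun _ _ => Nat.zero_le _)
        (Finset.mem_range.2 hu)
      simp only [ha]
      omega
    have hE : ∀ u < w, EvT (fun ℓ c => T (sp z a y u) ℓ c + T (g u) ℓ c) := fun u _ =>
      EvT_add (EvT_T _) (EvT_T _)
    obtain ⟨R, hR, hdis, hsum⟩ := realize hS w (fun u ℓ c => T (sp z a y u) ℓ c + T (g u) ℓ c) hE (z + ∑ u ∈ range w, y u)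
    have hndvd : ∀ p, z + ∑ u ∈ range w, y u < p → ∀ v < w, ¬ p ∣ y v := by
      intro p hp v hv hd
      have h1 := Nat.le_of_dvd (h.pos v hv) hd
      have h2 := Finset.single_le_sum (f := y) (fun _ _ => Nat.zero_le _) (Finset.mem_range.2 hv)
      omega
    obtain ⟨y1, h1, hval, hR1⟩ := insertion hS h R
      (fun u hu p hp => ⟨(hR u hu p hp).1, lt_of_le_of_lt (Nat.le_add_right _ _) (hR u hu p hp).2,
        hndvd p (hR u hu p hp).2⟩) hdis
    have hsp : ∀ u < w, sp z a y1 u = sp z a y u := by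
      intro u hu
      unfold sp
      refine Finset.prod_congr rfl fun p hp => ?_
      rw [Finset.mem_filter, Finset.mem_range] at hp
      rw [hval u hu p hp.2 (by omega)]
    exact creation hS h1 (by omega) (by omega) a
      (fun p hp hpz u hu => by rw [hval u hu p hp hpz]; exact ha' p hp hpz u hu) R
      (fun u hu p hp => ⟨(hR u hu p hp).1, lt_of_le_of_lt (Nat.le_add_right _ _) (hR u hu p hp).2,
        (hR1 u hu p hp).1, (hR1 u hu p hp).2⟩)
      (fun u hu ℓ hℓ c hc => by rw [hsp u hu]; exact hsum u hu ℓ hℓ c hc)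

end Pool.Agent.Sh
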