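import Pool.Agent.Sh.Defs

/-! # Theorem S: types -/

set_option autoImplicit false

namespace Pool.Agent.Sh

open Finset

-- MODULE s_t1
theorem T_one (ℓ c : ℕ) : T 1 ℓ c = 0 := by
  simp [T]

theorem T_mul {a b : ℕ} (h : a.Coprime b) (ℓ c : ℕ) : T (a * b) ℓ c = T a ℓ c + T b ℓ c := by
  rcases Nat.eq_zero_or_pos a with rfl | ha
  · have hb : b = 1 := (Nat.coprime_zero_left b).mp h
    subst hb
    rw [mul_one, T_one, add_zero]
  rcases Nat.eq_zero_or_pos b with rfl | hb
  · have ha : a = 1 := (Nat.coprime_zero_right a).mp h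
    subst ha
    rw [one_mul, T_one, zero_add]
  unfold T
  have hd : Disjoint a.primeFactors b.primeFactors := h.disjoint_primeFactors
  rw [h.primeFactors_mul, Finset.sum_union hd]
  have hz : ∀ {n p : ℕ}, p ∉ n.primeFactors → n.factorization p = 0 := by
    intro n p hp
    rw [← Nat.support_factorization] at hp
    exact Finsupp.notMem_support_iff.mp hp
  congr 1
  · refine Finset.sum_congr rfl fun p hp => ?_
    rw [Nat.factorization_mul ha.ne' hb.ne', Finsupp.add_apply, hz (Finset.disjoint_left.mp hd hp), add_zero]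
  · refine Finset.sum_congr rfl fun p hp => ?_
    rw [Nat.factorization_mul ha.ne' hb.ne', Finsupp.add_apply, hz (Finset.disjoint_right.mp hd hp), zero_add]

theorem T_prime_pow {p : ℕ} (hp : p.Prime) (v ℓ c : ℕ) : T (p ^ v) ℓ c = cmp p v ℓ c := by
  rcases Nat.eq_zero_or_pos v with rfl | hv
  · rw [pow_zero, T_one]
    unfold cmp
    rw [if_pos rfl]
  · unfold T
    rw [Nat.primeFactors_prime_pow hv.ne' hp, Finset.sum_singleton, hp.factorization_pow, Finsupp.single_eq_same]

-- MODULE s_t2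
theorem cmp_zero (p ℓ c : ℕ) : cmp p 0 ℓ c = 0 := by
  unfold cmp
  rw [if_pos rfl]

theorem cmp_one {p : ℕ} (hp : p.Prime) (hp2 : p ≠ 2) (ℓ c : ℕ) : cmp p 1 ℓ c = vec (p - 1) ℓ c := by
  unfold cmp vec
  rw [if_neg one_ne_zero, if_neg hp2, Nat.sub_self, pow_zero, one_mul]

theorem cmp_big {p z ℓ v : ℕ} (hp : p.Prime) (hz : z < p) (hℓ : ℓ.Prime) (hℓz : ℓ ≤ z) (hv : 1 ≤ v) (c : ℕ) :
    cmp p v ℓ c = cmp p 1 ℓ c := by
  have h2 := hℓ.two_le
  have hp2 : p ≠ 2 := by omega
  have hne : ¬ ℓ ∣ p := by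
    intro h
    have := (Nat.prime_dvd_prime_iff_eq hℓ hp).mp h
    omega
  have hp1 : p - 1 ≠ 0 := by
    have := hp.two_le
    omega
  rw [cmp_one hp hp2]
  unfold cmp vec
  rw [if_neg (by omega), if_neg hp2, Nat.factorization_mul (pow_ne_zero _ hp.ne_zero) hp1, Finsupp.add_apply,
    Nat.factorization_pow, Finsupp.smul_apply, Nat.factorization_eq_zero_of_not_dvd hne, smul_zero, zero_add]

-- MODULE s_t3
theorem TD_eq {a b : ℕ} (ha : 0 < a) (hb : 0 < b) (ℓ c : ℕ) : TD a b ℓ c = T (a / a.gcd b) ℓ c := by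
  unfold TD T
  have hg : a.gcd b ∣ a := Nat.gcd_dvd_left a b
  have hf : ∀ p, (a / a.gcd b).factorization p = a.factorization p - b.factorization p := by
    intro p
    rw [Nat.factorization_div hg, Nat.factorization_gcd ha.ne' hb.ne']
    show a.factorization p - min (a.factorization p) (b.factorization p) = a.factorization p - b.factorization p
    omega
  have hsub : (a / a.gcd b).primeFactors ⊆ a.primeFactors :=
    Nat.primeFactors_mono (Nat.div_dvd_of_dvd hg) ha.ne'
  rw [← Finset.sum_subset hsub]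
  · exact Finset.sum_congr rfl fun p _ => by rw [hf]
  · intro p _ hp
    have h0 : (a / a.gcd b).factorization p = 0 := by
      rw [← Nat.support_factorization] at hp
      exact Finsupp.notMem_support_iff.mp hp
    rw [← hf, h0, cmp_zero]

-- MODULE s_t4
theorem T_prod_pow (P : Finset ℕ) (hP : ∀ p ∈ P, p.Prime) (e : ℕ → ℕ) (ℓ c : ℕ) :
    T (∏ p ∈ P, p ^ e p) ℓ c = ∑ p ∈ P, cmp p (e p) ℓ c := by
  induction P using Finset.induction_on with
  | empty => rw [Finset.prod_empty, Finset.sum_empty, T_one]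
  | insert q P hq ih =>
    have hqp : q.Prime := hP q (Finset.mem_insert_self _ _)
    have hcop : (q ^ e q).Coprime (∏ p ∈ P, p ^ e p) := by
      refine Nat.Coprime.prod_right fun p hp => Nat.Coprime.pow _ _ ?_
      exact (Nat.coprime_primes hqp (hP p (Finset.mem_insert_of_mem hp))).mpr fun h => hq (h ▸ hp)
    rw [Finset.prod_insert hq, Finset.sum_insert hq, T_mul hcop, T_prime_pow hqp,
      ih fun p hp => hP p (Finset.mem_insert_of_mem hp)]

theorem T_prod (P : Finset ℕ) (hP : ∀ p ∈ P, p.Prime) (ℓ c : ℕ) :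
    T (∏ p ∈ P, p) ℓ c = ∑ p ∈ P, cmp p 1 ℓ c := by
  have h := T_prod_pow P hP (fun _ => 1) ℓ c
  rw [← h]
  congr 1
  exact Finset.prod_congr rfl fun p _ => (pow_one p).symm

end Pool.Agent.Sh
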